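import Mathlib
import Pool.Agent.Work.MP_91e6de_nt.DM.Defs

set_option autoImplicit false

/-!
# The determinant method along orbits in all dimensions (MP_91e6de): definitions

`σ` is a finite type (the set of coordinates).
-/

namespace Pool.Agent.Work.MP_91e6de_nt.DMR

open MvPolynomial NumberField IsDedekindDomain
open Pool.Agent.Work.MP_91e6de_nt.DM (va nv)

/-- `w ^ e * p (u / w)`, meaningful for `totalDegree p ≤ e`: the homogenisation of `p` to degree
`e`, evaluated at `(u, w)`. -/
noncomputable def hsub {σ A S : Type} [Fintype σ] [CommRing A] [CommRing S] [Algebra A S] (e : ℕ)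
    (p : MvPolynomial σ A) (u : σ → S) (w : S) : S :=
  ∑ m ∈ p.support, algebraMap A S (p.coeff m) * ((∏ i, u i ^ m i) * w ^ (e - ∑ i, m i))

/-- The iterates of the rational map `x ↦ (p i (x) / q (x))` of affine space, as numerators and
a common denominator (not reduced). -/
noncomputable def itr {σ A : Type} [Fintype σ] [CommRing A] (e : ℕ)
    (p : σ → MvPolynomial σ A) (q : MvPolynomial σ A) :
    ℕ → (σ → MvPolynomial σ A) × MvPolynomial σ A
  | 0 => (X, 1)
  | k + 1 => (fun i => hsub e (p i) (itr e p q k).1 (itr e p q k).2,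
      hsub e q (itr e p q k).1 (itr e p q k).2)

/-- `P 0, P 1, ..., P M` is a piece of an orbit of `x ↦ (p i (x) / q (x))`. -/
def IsOrb {σ A K : Type} [Fintype σ] [CommRing A] [Field K] [Algebra A K]
    (p : σ → MvPolynomial σ A) (q : MvPolynomial σ A) (M : ℕ) (P : ℕ → σ → K) : Prop :=
  ∀ n < M, aeval (P n) q ≠ 0 ∧ ∀ i, aeval (P n) q * P (n + 1) i = aeval (P n) (p i)

/-- The reduced degree of `U / W` in the variable `j` is at least `D`. -/
def RD {σ K : Type} [Field K] (j : σ) (D : ℕ) (U W : MvPolynomial σ K) : Prop :=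
  ∀ A B : MvPolynomial σ K, A.degreeOf j < D → B.degreeOf j < D → A * W = B * U →
    A = 0 ∧ B = 0

/-! ## Ideals -/

/-- The Hilbert function: the dimension of the space of polynomials of degree `≤ D` modulo `I`. -/
noncomputable def HF {σ K : Type} [Field K] (I : Ideal (MvPolynomial σ K)) (D : ℕ) : ℕ :=
  Module.finrank K ((restrictTotalDegree σ K D).map (Ideal.Quotient.mkₐ K I).toLinearMap)

/-- The point `P` lies on the zero set of `I`. -/
def On {σ K : Type} [Field K] (I : Ideal (MvPolynomial σ K)) (P : σ → K) : Prop :=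
  ∀ G ∈ I, aeval P G = 0

/-- The coordinates in `J` are algebraically independent modulo `I`. -/
def Ind {σ K : Type} [Field K] (I : Ideal (MvPolynomial σ K)) (J : Finset σ) : Prop :=
  ∀ F ∈ I, F.vars ⊆ J → F = 0

/-- The largest algebraically independent (modulo `I`) sets of coordinates have `d` elements (for
`I` prime: the transcendence degree of the quotient by `I` is `d`). -/
def Dim {σ K : Type} [Field K] (I : Ideal (MvPolynomial σ K)) (d : ℕ) : Prop :=
  (∃ J : Finset σ, J.card = d ∧ Ind I J) ∧ ∀ J : Finset σ, Ind I J → J.card ≤ d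

/-- Upper bound for the Hilbert function. -/
def HB {σ K : Type} [Field K] (I : Ideal (MvPolynomial σ K)) (B d : ℕ) : Prop :=
  ∀ D, 1 ≤ D → HF I D ≤ B * D ^ d

/-- `J` is the ideal of the closure of the image of the zero set of `I` under
`x ↦ (p i (x) / q (x))`. -/
def Push {σ K : Type} [Fintype σ] [Field K] (p : σ → MvPolynomial σ K) (q : MvPolynomial σ K)
    (I J : Ideal (MvPolynomial σ K)) : Prop :=
  ∀ (F : MvPolynomial σ K) (D : ℕ), F.totalDegree ≤ D → (F ∈ J ↔ hsub D F p q ∈ I)

/-! ## The set up -/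

/-- A piece of an orbit with heights `≤ h`. -/
structure Setup {σ K : Type} [Fintype σ] [Field K] [NumberField K]
    (p : σ → MvPolynomial σ (𝓞 K)) (q : MvPolynomial σ (𝓞 K)) (e h M : ℕ) (P : ℕ → σ → K) :
    Prop where
  he : 1 ≤ e
  hh : 1 ≤ h
  hp : ∀ i, (p i).totalDegree ≤ e
  hq : q.totalDegree ≤ e
  orb : IsOrb p q M P
  ht : ∀ n ≤ M, ∀ i, Height.logHeight₁ (P n i) ≤ h
  htq : ∀ n < M, Height.logHeight₁ (aeval (P n) q) ≤ h
  inj : Set.InjOn P (Set.Iic M)

/-- The times `n ∈ S` are good for the place `v`: the points `P n` are integral at `v` and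
congruent to `a`, and `q (P (n + l))` is a unit at `v` for `l < G`. -/
structure GoodAt {σ K : Type} [Fintype σ] [Field K] [NumberField K]
    (v : HeightOneSpectrum (𝓞 K)) (q : MvPolynomial σ (𝓞 K)) (P : ℕ → σ → K) (G : ℕ)
    (a : σ → 𝓞 K) (S : Finset ℕ) : Prop where
  int : ∀ n ∈ S, ∀ i, va v (P n i) ≤ 1
  cong : ∀ n ∈ S, ∀ i, va v (P n i - algebraMap (𝓞 K) K (a i)) < 1
  unit : ∀ n ∈ S, ∀ l < G, va v (aeval (P (n + l)) q) = 1

/-- Many points of the orbit (the times `n ∈ S`, with `S.card ≥ N / L`, all `≤ R`) on an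
irreducible variety (the zero set of the prime ideal `I`) of dimension `d` with Hilbert function
`≤ B * D ^ d`. -/
structure Lv {σ K : Type} [Field K] (P : ℕ → σ → K) (I : Ideal (MvPolynomial σ K))
    (S : Finset ℕ) (d B L N R : ℕ) : Prop where
  prime : I.IsPrime
  dim : Dim I d
  hb : HB I B d
  big : N ≤ S.card * L
  bd : ∀ n ∈ S, n ≤ R
  on : ∀ n ∈ S, On I (P n)

/-- A cyclic chain of proper subvarieties through `P n0`. -/
def Cyc {σ K : Type} [Fintype σ] [Field K] (p : σ → MvPolynomial σ K) (q : MvPolynomial σ K)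
    (M : ℕ) (P : ℕ → σ → K) : Prop :=
  ∃ (n0 g : ℕ) (I : ℕ → Ideal (MvPolynomial σ K)), n0 ≤ M ∧ 1 ≤ g ∧
    (∀ i ≤ g, (I i).IsPrime ∧ I i ≠ ⊥) ∧ (∀ i < g, Push p q (I i) (I (i + 1))) ∧ I g = I 0 ∧
    On (I 0) (P n0)

/-! ## Constants -/

/-- The degree of the relations in the determinant method. -/
def TT (kap d B h : ℕ) : ℕ := (d + 1) * (2 * B * (7 * kap * (d + 1) * h) ^ d)

/-- The degree needed for the first step. -/
def DZ (kap r h : ℕ) : ℕ := 2 ^ (r + 1) * (7 * kap * (r + 1) * h) ^ r

/-- The loss for the choice of the place and of the residue class. -/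
def LG (kap r G h : ℕ) : ℕ := 2 * ((16 * (6 * (r + G) * h) ^ 2) ^ kap) ^ r

/-- The degree of the relations given by the Hilbert function. -/
def QQ (d B : ℕ) : ℕ := B * (d + 1) ^ (d + 1)

/-- The strong bound for the Hilbert functions of the images. -/
def B1 (kap r d B h : ℕ) : ℕ := (r + 2) ^ r * TT kap d B h ^ r

/-- The weak bound for the Hilbert functions of the images. -/
def BW (kap r e d B h : ℕ) : ℕ := (B + B1 kap r d B h) * (e + 1) ^ d * d.factorial

/-- The new `B` after one step down. -/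
def BS (kap r e d B h : ℕ) : ℕ := (TT kap d B h + QQ d B + 1) ^ d * BW kap r e d B h

/-- The new `L` after one step down. -/
def LS (kap r e d B L h : ℕ) : ℕ :=
  L * (24 * L) * LG kap r (12 * L) h * ((d - 1).factorial * BS kap r e d B h)

end Pool.Agent.Work.MP_91e6de_nt.DMR
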