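import Mathlib
import Pool.Agent.Work.MP_91e6de_nt.DM.Stmts
import Pool.Agent.Work.MP_91e6de_nt.Bd.B03

set_option autoImplicit false

/-!
# The determinant method along orbits in all dimensions (MP_91e6de): statements, core

Every item is a `Prop`; item `NAME` is `S_NAME`, its proof goes to `I_NAME.lean` as
`theorem pr_NAME (h... : S_...) : S_NAME` (other items may be used as hypotheses).
-/

namespace Pool.Agent.Work.MP_91e6de_nt.DMR

open MvPolynomial NumberField IsDedekindDomain Height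
open Pool.Agent.Work.MP_91e6de_nt.DM (va nv)

/-! ## Homogenisation and iterates -/

/-- degrees of `hsub` -/
def S_HsDeg : Prop := ∀ (σ A : Type) [Fintype σ] [CommRing A] (e r : ℕ) (p : MvPolynomial σ A)
  (U : σ → MvPolynomial σ A) (W : MvPolynomial σ A), p.totalDegree ≤ e →
  (∀ i, (U i).totalDegree ≤ r) → W.totalDegree ≤ r → (hsub e p U W).totalDegree ≤ e * r

/-- algebra of `hsub` -/
def S_HsAlg : Prop := ∀ (σ A S : Type) [Fintype σ] [CommRing A] [CommRing S] [Algebra A S]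
  (u : σ → S) (w : S),
  (∀ (e k : ℕ) (p : MvPolynomial σ A), p.totalDegree ≤ e →
    hsub (e + k) p u w = w ^ k * hsub e p u w) ∧
  (∀ (e : ℕ) (p p' : MvPolynomial σ A), hsub e (p + p') u w = hsub e p u w + hsub e p' u w) ∧
  (∀ (e e' : ℕ) (p p' : MvPolynomial σ A), p.totalDegree ≤ e → p'.totalDegree ≤ e' →
    hsub (e + e') (p * p') u w = hsub e p u w * hsub e' p' u w) ∧
  (∀ (e : ℕ) (a : A), hsub e (C a) u w = algebraMap A S a * w ^ e) ∧
  (∀ (e : ℕ) (i : σ), hsub (e + 1) (X i : MvPolynomial σ A) u w = u i * w ^ e)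

/-- iterates and injective homomorphisms of coefficients -/
def S_MapG : Prop := ∀ (σ A B : Type) [Fintype σ] [CommRing A] [CommRing B] (φ : A →+* B),
  Function.Injective φ → ∀ (e : ℕ) (p : σ → MvPolynomial σ A) (q : MvPolynomial σ A) (k : ℕ),
    (∀ i, map φ ((itr e p q k).1 i) = (itr e (fun i => map φ (p i)) (map φ q) k).1 i) ∧
    map φ (itr e p q k).2 = (itr e (fun i => map φ (p i)) (map φ q) k).2

/-- iterates along an orbit -/
def S_IteG : Prop := ∀ (σ A K : Type) [Fintype σ] [CommRing A] [Field K] [Algebra A K] (e : ℕ)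
  (p : σ → MvPolynomial σ A) (q : MvPolynomial σ A), (∀ i, (p i).totalDegree ≤ e) →
  q.totalDegree ≤ e → ∀ (M : ℕ) (P : ℕ → σ → K), IsOrb p q M P → ∀ n k, n + k ≤ M →
    aeval (P n) (itr e p q k).2 ≠ 0 ∧
    (∀ i, aeval (P n) ((itr e p q k).1 i) = aeval (P n) (itr e p q k).2 * P (n + k) i) ∧
    aeval (P n) (itr e p q k).2 =
      ∏ l ∈ Finset.range k, aeval (P (n + l)) q ^ e ^ (k - 1 - l)

/-- degrees of the iterates -/
def S_DegG : Prop := ∀ (σ A : Type) [Fintype σ] [CommRing A] (e : ℕ)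
  (p : σ → MvPolynomial σ A) (q : MvPolynomial σ A), 1 ≤ e → (∀ i, (p i).totalDegree ≤ e) →
  q.totalDegree ≤ e → ∀ k, (∀ i, ((itr e p q k).1 i).totalDegree ≤ e ^ k) ∧
    (itr e p q k).2.totalDegree ≤ e ^ k

/-- independence from the reduced degree -/
def S_IndG : Prop := ∀ (σ K : Type) [Field K] (j : σ) (D g : ℕ) (U W : MvPolynomial σ K),
  W ≠ 0 → RD j D U W → ∀ Q : ℕ → MvPolynomial σ K, (∀ l, (Q l).degreeOf j < D) →
    ∑ l ∈ Finset.range (g + 1), Q l * U ^ l * W ^ (g - l) = 0 → ∀ l ≤ g, Q l = 0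

/-! ## Ideals -/

/-- independent coordinates bound the Hilbert function from below -/
def S_HFlow : Prop := ∀ (σ K : Type) [Fintype σ] [Field K] (I : Ideal (MvPolynomial σ K))
  (J : Finset σ) (D : ℕ), Ind I J → (D + J.card).choose J.card ≤ HF I D

/-- independence and transcendence degree -/
def S_DimTr : Prop := ∀ (σ K : Type) [Fintype σ] [Field K] (I : Ideal (MvPolynomial σ K)),
  I.IsPrime →
    (∀ J : Finset σ, Ind I J ↔
      AlgebraicIndependent K (fun i : J => Ideal.Quotient.mk I (X (i : σ)))) ∧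
    (∀ d : ℕ, Dim I d ↔ Algebra.trdeg K (MvPolynomial σ K ⧸ I) = d)

/-- larger primes have smaller dimension -/
def S_DimLt : Prop := ∀ (σ K : Type) [Fintype σ] [Field K] (I I' : Ideal (MvPolynomial σ K))
  (d d' : ℕ), I.IsPrime → I'.IsPrime → I < I' → Dim I d → Dim I' d' → d' < d

/-- an element which is not algebraic over a given set of coordinates -/
def S_Trans : Prop := ∀ (σ K : Type) [Fintype σ] [DecidableEq σ] [Field K]
  (I : Ideal (MvPolynomial σ K)) (d : ℕ) (J : Finset σ), I.IsPrime → Dim I d → J.card ≤ d →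
  ¬ Ind I J → ∃ i, i ∉ J ∧ ∀ (g : ℕ) (Q : ℕ → MvPolynomial σ K), (∀ l, (Q l).vars ⊆ J) →
    ∑ l ∈ Finset.range (g + 1), Q l * X i ^ l ∈ I → ∀ l ≤ g, Q l ∈ I

/-- Hilbert function bound gives relations -/
def S_HBRel : Prop := ∀ (σ K : Type) [Fintype σ] [Field K] (I : Ideal (MvPolynomial σ K))
  (B d : ℕ) (f : Fin (d + 1) → MvPolynomial σ K), HB I B d → (∀ i, (f i).totalDegree ≤ 1) →
    ∃ F : MvPolynomial (Fin (d + 1)) K, F ≠ 0 ∧ F.totalDegree ≤ QQ d B ∧ aeval f F ∈ I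

/-- relations give a Hilbert function bound -/
def S_RelHB : Prop := ∀ (σ K : Type) [Fintype σ] [Field K] (I : Ideal (MvPolynomial σ K))
  (T d : ℕ), I.IsPrime → 1 ≤ T →
  (∀ J : Finset σ, J.card = d + 1 → ∃ F ∈ I, F ≠ 0 ∧ F.vars ⊆ J ∧ F.totalDegree ≤ T) →
    HB I ((Fintype.card σ + 2) ^ Fintype.card σ * T ^ Fintype.card σ) d

/-- Hilbert function of a hypersurface section -/
def S_Cut : Prop := ∀ (σ K : Type) [Fintype σ] [Field K] (I : Ideal (MvPolynomial σ K))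
  (G : MvPolynomial σ K) (B d T : ℕ), I.IsPrime → G ∉ I → G.totalDegree ≤ T → HB I B (d + 1) →
    HB (I ⊔ Ideal.span {G}) ((T + 1) ^ (d + 1) * B) d

/-- Krull's principal ideal theorem -/
def S_Krull : Prop := ∀ (σ K : Type) [Fintype σ] [Field K] (I Q : Ideal (MvPolynomial σ K))
  (G : MvPolynomial σ K) (d : ℕ), I.IsPrime → Dim I (d + 1) → G ∉ I →
  Q ∈ (I ⊔ Ideal.span {G}).minimalPrimes → Dim Q d

/-- number of components -/
def S_Num : Prop := ∀ (σ K : Type) [Fintype σ] [Field K] (I : Ideal (MvPolynomial σ K))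
  (B d : ℕ) (Z : Finset (Ideal (MvPolynomial σ K))), HB I B d →
  (∀ Q ∈ Z, Q.IsPrime ∧ I ≤ Q ∧ Dim Q d) → Z.card ≤ d.factorial * B

/-- one step down -/
def S_Down : Prop := ∀ (σ K : Type) [Fintype σ] [Field K] (P : ℕ → σ → K)
  (I : Ideal (MvPolynomial σ K)) (G : MvPolynomial σ K) (S : Finset ℕ) (d B L N R T : ℕ),
  Lv P I S (d + 1) B L N R → S.Nonempty → G.totalDegree ≤ T → (∀ n ∈ S, aeval (P n) G = 0) →
  G ∉ I → ∃ (I' : Ideal (MvPolynomial σ K)) (S' : Finset ℕ),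
    Lv P I' S' d ((T + 1) ^ (d + 1) * B) (L * (d.factorial * ((T + 1) ^ (d + 1) * B))) N R

/-- the image of a prime -/
def S_PushEx : Prop := ∀ (σ K : Type) [Fintype σ] [Field K] (p : σ → MvPolynomial σ K)
  (q : MvPolynomial σ K) (I : Ideal (MvPolynomial σ K)), I.IsPrime → q ∉ I →
    ∃ J : Ideal (MvPolynomial σ K), J.IsPrime ∧ Push p q I J

/-- the image of a point -/
def S_PushPt : Prop := ∀ (σ K : Type) [Fintype σ] [Field K] (p : σ → MvPolynomial σ K)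
  (q : MvPolynomial σ K) (I J : Ideal (MvPolynomial σ K)) (P P' : σ → K), Push p q I J →
  On I P → aeval P q ≠ 0 → (∀ i, aeval P q * P' i = aeval P (p i)) → On J P'

/-- dimension and Hilbert function of the image -/
def S_PushDim : Prop := ∀ (σ K : Type) [Fintype σ] [Field K] (p : σ → MvPolynomial σ K)
  (q : MvPolynomial σ K) (e B d : ℕ) (I J : Ideal (MvPolynomial σ K)),
  (∀ i, (p i).totalDegree ≤ e) → q.totalDegree ≤ e → I.IsPrime → J.IsPrime → Push p q I J →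
  Dim I d → HB I B d →
    ∃ d' ≤ d, Dim J d' ∧ HB J (B * (e + 1) ^ d * (d - d').factorial) d'

/-- dependent coordinates have a relation of small degree -/
def S_E1 : Prop := ∀ (σ K : Type) [Fintype σ] [Field K] (I : Ideal (MvPolynomial σ K))
  (B d : ℕ) (J : Finset σ), I.IsPrime → Dim I d → HB I B d → J.card = d → ¬ Ind I J →
    ∃ F ∈ I, F ≠ 0 ∧ F.vars ⊆ J ∧ F.totalDegree ≤ QQ d B

/-- two primes of the same dimension, common independent set -/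
def S_E2 : Prop := ∀ (σ K : Type) [Fintype σ] [Field K] [CharZero K]
  (I I' : Ideal (MvPolynomial σ K)) (T d : ℕ) (J : Finset σ), I.IsPrime → I'.IsPrime →
  Dim I d → Dim I' d → J.card = d → Ind I J → Ind I' J →
  (∀ f : Fin (d + 1) → MvPolynomial σ K, (∀ i, (f i).totalDegree ≤ 1) →
    ∃ F : MvPolynomial (Fin (d + 1)) K, F ≠ 0 ∧ F.totalDegree ≤ T ∧ aeval f F ∈ I) →
  (∀ F ∈ I, F.totalDegree ≤ T → F ∈ I') → I = I'

/-- two primes of the same dimension -/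
def S_EE : Prop := ∀ (σ K : Type) [Fintype σ] [Field K] [CharZero K]
  (I I' : Ideal (MvPolynomial σ K)) (B d : ℕ), I.IsPrime → I'.IsPrime →
  Dim I d → Dim I' d → HB I B d → (∀ F ∈ I, F.totalDegree ≤ QQ d B → F ∈ I') → I = I'

/-- dimension zero -/
def S_Lev0 : Prop := ∀ (σ K : Type) [Fintype σ] [Field K] (I : Ideal (MvPolynomial σ K))
  (P P' : σ → K), I.IsPrime → Dim I 0 → On I P → On I P' → P = P'

/-! ## Arithmetic -/

/-- product formula argument -/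
def S_VanG : Prop := ∀ (K τ J : Type) [Field K] [NumberField K] [Fintype τ] [Fintype J]
  (v : HeightOneSpectrum (𝓞 K)) (ex : J → τ → ℕ) (c : J → ℤ) (X D : ℕ) (x : τ → K) (θ : ℝ),
  1 ≤ X → (∀ j, |c j| ≤ X) → (∀ j i, ex j i ≤ D) →
    va v (∑ j, (c j : K) * ∏ i, x i ^ ex j i) ≤ θ →
    θ * (((Fintype.card J * X : ℕ) : ℝ) ^ Module.finrank ℚ K * ∏ i, mulHeight₁ (x i) ^ D) < 1 →
      ∑ j, (c j : K) * ∏ i, x i ^ ex j i = 0

/-- divisibility of the determinants -/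
def S_Det : Prop := ∀ (K σ : Type) [Field K] [NumberField K] [Fintype σ]
  (v : HeightOneSpectrum (𝓞 K)) (I : Ideal (MvPolynomial σ K)) (a : σ → 𝓞 K) (ρ K0 : ℕ)
  (φ : Fin ρ → MvPolynomial σ (𝓞 K)) (Q : Fin ρ → σ → K), (∀ b, On I (Q b)) →
  (∀ b i, va v (Q b i - algebraMap (𝓞 K) K (a i)) < 1) →
    va v (Matrix.det (Matrix.of fun x b : Fin ρ => aeval (Q b) (φ x))) ≤
      ((nv v : ℝ)⁻¹) ^ ∑ k ∈ Finset.range K0, (ρ - HF I k)

/-- the rank of the evaluation matrix is small -/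
def S_Rank : Prop := ∀ (K σ τ : Type) [Field K] [NumberField K] [Fintype σ] [Fintype τ]
  (v : HeightOneSpectrum (𝓞 K)) (I : Ideal (MvPolynomial σ K)) (B d D h : ℕ)
  (E : Finset (τ → ℕ)) (S : Finset ℕ) (P : ℕ → σ → K) (a : σ → 𝓞 K) (y : ℕ → τ → K)
  (U : τ → MvPolynomial σ (𝓞 K)) (W : MvPolynomial σ (𝓞 K)),
  1 ≤ B → 1 ≤ d → 1 ≤ D → 1 ≤ h → 1 ≤ Fintype.card τ → HB I B d →
  (∀ α ∈ E, ∀ l, α l ≤ D) →
  2 * B * (7 * Module.finrank ℚ K * Fintype.card τ * D * h) ^ d ≤ E.card →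
  (∀ n ∈ S, On I (P n)) →
  (∀ n ∈ S, ∀ i, va v (P n i - algebraMap (𝓞 K) K (a i)) < 1) →
  (∀ n ∈ S, va v (aeval (P n) W) = 1) →
  (∀ n ∈ S, ∀ l, aeval (P n) (U l) = aeval (P n) W * y n l) →
  (∀ n ∈ S, ∀ l, logHeight₁ (y n l) ≤ h) →
    ∃ c : (τ → ℕ) → K, (∃ α ∈ E, c α ≠ 0) ∧
      ∀ n ∈ S, ∑ α ∈ E, c α * ∏ l, y n l ^ α l = 0

/-- residue classes -/
def S_ClsG : Prop := ∀ (K σ : Type) [Field K] [NumberField K] [Fintype σ]
  (v : HeightOneSpectrum (𝓞 K)) (S : Finset ℕ) (P : ℕ → σ → K),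
  (∀ n ∈ S, ∀ i, va v (P n i) ≤ 1) →
    ∃ (a : σ → 𝓞 K) (S' : Finset ℕ), S' ⊆ S ∧ S.card ≤ S'.card * nv v ^ Fintype.card σ ∧
      ∀ n ∈ S', ∀ i, va v (P n i - algebraMap (𝓞 K) K (a i)) < 1

/-- a good place -/
def S_Good : Prop := ∀ (K σ : Type) [Field K] [NumberField K] [Fintype σ]
  (p : σ → MvPolynomial σ (𝓞 K)) (q : MvPolynomial σ (𝓞 K)) (e h M G : ℕ) (P : ℕ → σ → K)
  (S : Finset ℕ), Setup p q e h M P → 1 ≤ Fintype.card σ → (∀ n ∈ S, n + G ≤ M) →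
    ∃ (v : HeightOneSpectrum (𝓞 K)) (a : σ → 𝓞 K) (S' : Finset ℕ), S' ⊆ S ∧
      S.card ≤ S'.card * LG (Module.finrank ℚ K) (Fintype.card σ) G h ∧ GoodAt v q P G a S'

/-- a small gap -/
def S_Gap2 : Prop := ∀ (N L R : ℕ) (S : Finset ℕ), 1 ≤ L → 4 ≤ S.card → (∀ n ∈ S, n ≤ R) →
  R ≤ 3 * N → N ≤ S.card * L →
    ∃ g, 1 ≤ g ∧ g ≤ 12 * L ∧ S.card ≤ (S.filter (fun n => n + g ∈ S)).card * (24 * L)

/-- relations between the coordinates of the shifted points -/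
def S_Rel : Prop := ∀ (K σ : Type) [Field K] [NumberField K] [Fintype σ]
  (p : σ → MvPolynomial σ (𝓞 K)) (q : MvPolynomial σ (𝓞 K)) (e h M G B d k : ℕ)
  (P : ℕ → σ → K) (v : HeightOneSpectrum (𝓞 K)) (a : σ → 𝓞 K)
  (I : Ideal (MvPolynomial σ K)) (S : Finset ℕ) (J : Finset σ), Setup p q e h M P →
  GoodAt v q P G a S → 1 ≤ B → 1 ≤ d → HB I B d → k ≤ G → (∀ n ∈ S, n + G ≤ M) →
  (∀ n ∈ S, On I (P n)) → J.card = d + 1 →
    ∃ F : MvPolynomial σ K, F ≠ 0 ∧ F.vars ⊆ J ∧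
      F.totalDegree ≤ TT (Module.finrank ℚ K) d B h ∧ ∀ n ∈ S, aeval (P (n + k)) F = 0

/-- the first hypersurface -/
def S_RelZ : Prop := ∀ (K σ : Type) [Field K] [NumberField K] [Fintype σ]
  (p : σ → MvPolynomial σ (𝓞 K)) (q : MvPolynomial σ (𝓞 K)) (e h M k : ℕ)
  (P : ℕ → σ → K) (v : HeightOneSpectrum (𝓞 K)) (a : σ → 𝓞 K) (S : Finset ℕ) (i j : σ),
  Setup p q e h M P → GoodAt v q P k a S → (∀ n ∈ S, n + k ≤ M) →
  RD j (DZ (Module.finrank ℚ K) (Fintype.card σ) h + 1)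
    (map (algebraMap (𝓞 K) K) ((itr e p q k).1 i)) (map (algebraMap (𝓞 K) K) (itr e p q k).2) →
    ∃ E : MvPolynomial σ K, E ≠ 0 ∧
      E.totalDegree ≤ DZ (Module.finrank ℚ K) (Fintype.card σ) h * (Fintype.card σ + e ^ k) ∧
      ∀ n ∈ S, aeval (P n) E = 0

/-! ## Levels -/

/-- the `B` of the first level -/
def BZ (kap r e k h : ℕ) : ℕ := (DZ kap r h * (r + e ^ k) + 1) ^ r * 2 ^ r

/-- one step of the chain -/
def S_Step : Prop := ∀ (K σ : Type) [Field K] [NumberField K] [Fintype σ]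
  (p : σ → MvPolynomial σ (𝓞 K)) (q : MvPolynomial σ (𝓞 K)) (e h M : ℕ) (P : ℕ → σ → K)
  (v : HeightOneSpectrum (𝓞 K)) (a : σ → 𝓞 K) (I0 I : Ideal (MvPolynomial σ K))
  (S : Finset ℕ) (G i d B L N R R' b : ℕ),
  Setup p q e h M P → GoodAt v q P G a S → 1 ≤ B → 1 ≤ d → HB I0 B d →
  (∀ n ∈ S, On I0 (P n)) → S.Nonempty → (∀ n ∈ S, n + G ≤ M ∧ n ≤ R) → R + G ≤ R' →
  N ≤ S.card * L → i < G → I.IsPrime → Dim I d → HB I b d →
  b ≤ B + B1 (Module.finrank ℚ K) (Fintype.card σ) d B h → (∀ n ∈ S, On I (P (n + i))) →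
  (∀ d' < d, ∀ (I' : Ideal (MvPolynomial σ K)) (S' : Finset ℕ),
    ¬ Lv P I' S' d' (BS (Module.finrank ℚ K) (Fintype.card σ) e d B h)
      (L * ((d - 1).factorial * BS (Module.finrank ℚ K) (Fintype.card σ) e d B h)) N R') →
    ∃ J : Ideal (MvPolynomial σ K), J.IsPrime ∧
      Push (fun i => map (algebraMap (𝓞 K) K) (p i)) (map (algebraMap (𝓞 K) K) q) I J ∧
      Dim J d ∧ HB J (B1 (Module.finrank ℚ K) (Fintype.card σ) d B h) d ∧
      ∀ n ∈ S, On J (P (n + (i + 1)))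

/-- the chain is cyclic -/
def S_Chain : Prop := ∀ (K σ : Type) [Field K] [NumberField K] [Fintype σ]
  (p : σ → MvPolynomial σ (𝓞 K)) (q : MvPolynomial σ (𝓞 K)) (e h M : ℕ) (P : ℕ → σ → K)
  (I : Ideal (MvPolynomial σ K)) (S : Finset ℕ) (d B L N R R' : ℕ), Setup p q e h M P →
  1 ≤ d → d < Fintype.card σ → 1 ≤ B → 1 ≤ L → Lv P I S d B L N R → 4 ≤ S.card →
  R ≤ 3 * N → R + 12 * L ≤ R' → R' ≤ M →
  (∀ d' < d, ∀ (I' : Ideal (MvPolynomial σ K)) (S' : Finset ℕ),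
    ¬ Lv P I' S' d' (BS (Module.finrank ℚ K) (Fintype.card σ) e d B h)
      (LS (Module.finrank ℚ K) (Fintype.card σ) e d B L h) N R') →
    Cyc (fun i => map (algebraMap (𝓞 K) K) (p i)) (map (algebraMap (𝓞 K) K) q) M P

/-- the first level -/
def S_Start : Prop := ∀ (K σ : Type) [Field K] [NumberField K] [Fintype σ]
  (p : σ → MvPolynomial σ (𝓞 K)) (q : MvPolynomial σ (𝓞 K)) (e h M N k : ℕ)
  (P : ℕ → σ → K) (i j : σ), Setup p q e h M P → N + k ≤ M →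
  RD j (DZ (Module.finrank ℚ K) (Fintype.card σ) h + 1)
    (map (algebraMap (𝓞 K) K) ((itr e p q k).1 i)) (map (algebraMap (𝓞 K) K) (itr e p q k).2) →
    ∃ (I : Ideal (MvPolynomial σ K)) (S : Finset ℕ),
      Lv P I S (Fintype.card σ - 1) (BZ (Module.finrank ℚ K) (Fintype.card σ) e k h)
        (LG (Module.finrank ℚ K) (Fintype.card σ) k h * ((Fintype.card σ - 1).factorial *
          BZ (Module.finrank ℚ K) (Fintype.card σ) e k h)) N N

/-- exponents, one step down -/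
def S_Exp : Prop := ∀ kap r e a : ℕ, 1 ≤ kap → 1 ≤ r → 1 ≤ e → ∃ a', a ≤ a' ∧
  ∀ X h d : ℕ, 2 ≤ X → h ≤ X → d ≤ r →
    BS kap r e d (X ^ a) h ≤ X ^ a' ∧ LS kap r e d (X ^ a) (X ^ a) h ≤ X ^ a'

/-- exponents, first level -/
def S_Exp0 : Prop := ∀ kap r e : ℕ, 1 ≤ kap → 1 ≤ r → 1 ≤ e → ∃ a,
  ∀ X h k : ℕ, 2 ≤ X → h ≤ X → k ≤ X → e ^ k ≤ X →
    BZ kap r e k h ≤ X ^ a ∧ LG kap r k h * ((r - 1).factorial * BZ kap r e k h) ≤ X ^ a

/-- MAIN THEOREM of the determinant method: slow orbits lie in a cyclic chain -/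
def S_Core : Prop := ∀ kap r e : ℕ, 1 ≤ kap → 1 ≤ r → 1 ≤ e → ∃ A : ℕ,
  ∀ (K σ : Type) [Field K] [NumberField K] [Fintype σ]
  (p : σ → MvPolynomial σ (𝓞 K)) (q : MvPolynomial σ (𝓞 K)) (h M N k X : ℕ)
  (P : ℕ → σ → K) (i j : σ), Module.finrank ℚ K = kap → Fintype.card σ = r →
  Setup p q e h M P → 3 * N ≤ M → 2 ≤ X → h ≤ X → k ≤ X → e ^ k ≤ X → X ^ A ≤ N →
  RD j (DZ kap r h + 1)
    (map (algebraMap (𝓞 K) K) ((itr e p q k).1 i)) (map (algebraMap (𝓞 K) K) (itr e p q k).2) →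
    Cyc (fun i => map (algebraMap (𝓞 K) K) (p i)) (map (algebraMap (𝓞 K) K) q) M P

end Pool.Agent.Work.MP_91e6de_nt.DMR
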