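import Mathlib
import Pool.Agent.Work.MP_91e6de_nt.DMR.Defs

set_option autoImplicit false

/-!
# The determinant method along orbits in all dimensions (MP_91e6de): definitions, skew products

Rational self-maps `(x, y) ↦ (g (x), F (x, y))` of `𝔸^s × ℙ^m`, `g` a polynomial map, `F` an
`(m + 1)`-tuple of forms in `y` of the same degree whose coefficients are polynomials in `x`.
For `s = 0` these are the rational self-maps of `ℙ^m`.
-/

namespace Pool.Agent.Work.MP_91e6de_nt.DMR

open MvPolynomial NumberField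

/-- Evaluation of a polynomial in `y` with coefficients polynomials in `x`. -/
noncomputable def ev {s m : ℕ} {A S : Type} [CommRing A] [CommRing S] [Algebra A S]
    (x : Fin s → S) (y : Fin (m + 1) → S)
    (G : MvPolynomial (Fin (m + 1)) (MvPolynomial (Fin s) A)) : S :=
  eval₂ (eval₂Hom (algebraMap A S) x) y G

/-- Composition `G (g (x), F (x, y))`. -/
noncomputable def comp {s m : ℕ} {A : Type} [CommRing A]
    (g : Fin s → MvPolynomial (Fin s) A)
    (F : Fin (m + 1) → MvPolynomial (Fin (m + 1)) (MvPolynomial (Fin s) A))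
    (G : MvPolynomial (Fin (m + 1)) (MvPolynomial (Fin s) A)) :
    MvPolynomial (Fin (m + 1)) (MvPolynomial (Fin s) A) :=
  ev (fun i => C (g i)) F G

/-- The iterates of `(x, y) ↦ (g (x), F (x, y))`: the `n`-th iterate is
`(x, y) ↦ ((itB g F n).1 (x), (itB g F n).2 (x, y))`. -/
noncomputable def itB {s m : ℕ} {A : Type} [CommRing A]
    (g : Fin s → MvPolynomial (Fin s) A)
    (F : Fin (m + 1) → MvPolynomial (Fin (m + 1)) (MvPolynomial (Fin s) A)) :
    ℕ → (Fin s → MvPolynomial (Fin s) A) ×
      (Fin (m + 1) → MvPolynomial (Fin (m + 1)) (MvPolynomial (Fin s) A))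
  | 0 => (X, X)
  | n + 1 => (fun i => aeval (itB g F n).1 (g i),
      fun i => ev (fun j => C ((itB g F n).1 j)) (itB g F n).2 (F i))

/-- `(x n, y n)` is an orbit (homogeneous coordinates in the fibre, never all zero). -/
def OrbB {s m : ℕ} {A K : Type} [CommRing A] [Field K] [Algebra A K]
    (g : Fin s → MvPolynomial (Fin s) A)
    (F : Fin (m + 1) → MvPolynomial (Fin (m + 1)) (MvPolynomial (Fin s) A))
    (x : ℕ → Fin s → K) (y : ℕ → Fin (m + 1) → K) : Prop :=
  (∀ n i, x (n + 1) i = aeval (x n) (g i)) ∧ (∀ n i, y (n + 1) i = ev (x n) (y n) (F i)) ∧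
    ∀ n, y n ≠ 0

/-- The fibre degrees of the iterates are at least `l k`: every nonzero tuple of forms which is
proportional to the fibre part of the `k`-th iterate has degree at least `l k`. -/
def Gr {s m : ℕ} {K : Type} [Field K] (g : Fin s → MvPolynomial (Fin s) K)
    (F : Fin (m + 1) → MvPolynomial (Fin (m + 1)) (MvPolynomial (Fin s) K)) (k : ℕ)
    (l : ℝ) : Prop :=
  ∀ (D : ℕ) (G : Fin (m + 1) → MvPolynomial (Fin (m + 1)) (MvPolynomial (Fin s) K)), G ≠ 0 →
    (∀ i, (G i).IsHomogeneous D) → (∀ i j, G i * (itB g F k).2 j = G j * (itB g F k).2 i) →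
      l ≤ D

/-! ## Charts -/

/-- The linear form `y_m + a_0 y_0 + ... + a_(m-1) y_(m-1)`. -/
def ell {m : ℕ} {S : Type} [CommRing S] (a : Fin m → ℕ) (y : Fin (m + 1) → S) : S :=
  y (Fin.last m) + ∑ i, (a i : S) * y i.castSucc

/-- The affine coordinates `y_i / ell (y)`. -/
def ch {m : ℕ} {K : Type} [Field K] (a : Fin m → ℕ) (y : Fin (m + 1) → K) : Fin m → K :=
  fun i => y i.castSucc / ell a y

/-- The homogeneous coordinates, normalised by `ell = 1`, of the point with affine coordinates
`z`. -/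
def hc {m : ℕ} {S : Type} [CommRing S] (a : Fin m → ℕ) (z : Fin m → S) : Fin (m + 1) → S :=
  Fin.snoc z (1 - ∑ i, (a i : S) * z i)

/-- Restriction of a form to the chart. The coordinates of the chart are `X (inl i)` (base) and
`X (inr i)` (fibre). -/
noncomputable def dhB {s m : ℕ} {A : Type} [CommRing A] (a : Fin m → ℕ)
    (G : MvPolynomial (Fin (m + 1)) (MvPolynomial (Fin s) A)) :
    MvPolynomial (Fin s ⊕ Fin m) A :=
  ev (fun i => X (Sum.inl i)) (hc a fun i => X (Sum.inr i)) G

/-- The denominator of the map in the chart. -/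
noncomputable def qB {s m : ℕ} {A : Type} [CommRing A] (a : Fin m → ℕ)
    (F : Fin (m + 1) → MvPolynomial (Fin (m + 1)) (MvPolynomial (Fin s) A)) :
    MvPolynomial (Fin s ⊕ Fin m) A :=
  ell a fun i => dhB a (F i)

/-- The numerators of the map in the chart. -/
noncomputable def pB {s m : ℕ} {A : Type} [CommRing A] (a : Fin m → ℕ)
    (g : Fin s → MvPolynomial (Fin s) A)
    (F : Fin (m + 1) → MvPolynomial (Fin (m + 1)) (MvPolynomial (Fin s) A)) :
    Fin s ⊕ Fin m → MvPolynomial (Fin s ⊕ Fin m) A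
  | Sum.inl i => rename Sum.inl (g i) * qB a F
  | Sum.inr i => dhB a (F i.castSucc)

end Pool.Agent.Work.MP_91e6de_nt.DMR
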