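import Mathlib
import Pool.Agent.Work.MP_91e6de_nt.Bd.B03
import Pool.Agent.Work.MP_91e6de_nt.DMR.DefsP

set_option autoImplicit false

/-!
# Basic facts on skew products and charts (proved)
-/

namespace Pool.Agent.Work.MP_91e6de_nt.DMR

open MvPolynomial

section

variable {s m : ℕ} {A S S' : Type} [CommRing A] [CommRing S] [CommRing S'] [Algebra A S]
  [Algebra A S']

/-- `ev` as a ring homomorphism. -/
noncomputable def evHom (x : Fin s → S) (y : Fin (m + 1) → S) :
    MvPolynomial (Fin (m + 1)) (MvPolynomial (Fin s) A) →+* S :=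
  eval₂Hom (eval₂Hom (algebraMap A S) x) y

theorem ev_eq (x : Fin s → S) (y : Fin (m + 1) → S)
    (G : MvPolynomial (Fin (m + 1)) (MvPolynomial (Fin s) A)) : ev x y G = evHom x y G := rfl

@[simp] theorem ev_add (x : Fin s → S) (y : Fin (m + 1) → S)
    (G H : MvPolynomial (Fin (m + 1)) (MvPolynomial (Fin s) A)) :
    ev x y (G + H) = ev x y G + ev x y H := map_add (evHom (A := A) x y) G H

@[simp] theorem ev_sub (x : Fin s → S) (y : Fin (m + 1) → S)
    (G H : MvPolynomial (Fin (m + 1)) (MvPolynomial (Fin s) A)) :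
    ev x y (G - H) = ev x y G - ev x y H := map_sub (evHom (A := A) x y) G H

@[simp] theorem ev_mul (x : Fin s → S) (y : Fin (m + 1) → S)
    (G H : MvPolynomial (Fin (m + 1)) (MvPolynomial (Fin s) A)) :
    ev x y (G * H) = ev x y G * ev x y H := map_mul (evHom (A := A) x y) G H

@[simp] theorem ev_zero (x : Fin s → S) (y : Fin (m + 1) → S) :
    ev x y (0 : MvPolynomial (Fin (m + 1)) (MvPolynomial (Fin s) A)) = 0 :=
  map_zero (evHom (A := A) x y)

@[simp] theorem ev_one (x : Fin s → S) (y : Fin (m + 1) → S) :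
    ev x y (1 : MvPolynomial (Fin (m + 1)) (MvPolynomial (Fin s) A)) = 1 :=
  map_one (evHom (A := A) x y)

@[simp] theorem ev_pow (x : Fin s → S) (y : Fin (m + 1) → S)
    (G : MvPolynomial (Fin (m + 1)) (MvPolynomial (Fin s) A)) (n : ℕ) :
    ev x y (G ^ n) = ev x y G ^ n := map_pow (evHom (A := A) x y) G n

@[simp] theorem ev_natCast (x : Fin s → S) (y : Fin (m + 1) → S) (n : ℕ) :
    ev x y (n : MvPolynomial (Fin (m + 1)) (MvPolynomial (Fin s) A)) = n :=
  map_natCast (evHom (A := A) x y) n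

theorem ev_sum {ι : Type} (x : Fin s → S) (y : Fin (m + 1) → S) (T : Finset ι)
    (G : ι → MvPolynomial (Fin (m + 1)) (MvPolynomial (Fin s) A)) :
    ev x y (∑ i ∈ T, G i) = ∑ i ∈ T, ev x y (G i) := map_sum (evHom (A := A) x y) G T

theorem ev_prod {ι : Type} (x : Fin s → S) (y : Fin (m + 1) → S) (T : Finset ι)
    (G : ι → MvPolynomial (Fin (m + 1)) (MvPolynomial (Fin s) A)) :
    ev x y (∏ i ∈ T, G i) = ∏ i ∈ T, ev x y (G i) := map_prod (evHom (A := A) x y) G T

@[simp] theorem ev_X (x : Fin s → S) (y : Fin (m + 1) → S) (i : Fin (m + 1)) :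
    ev x y (X i : MvPolynomial (Fin (m + 1)) (MvPolynomial (Fin s) A)) = y i := by
  simp [ev]

@[simp] theorem ev_C (x : Fin s → S) (y : Fin (m + 1) → S) (r : MvPolynomial (Fin s) A) :
    ev x y (C r : MvPolynomial (Fin (m + 1)) (MvPolynomial (Fin s) A)) = aeval x r := by
  simp only [ev, eval₂_C]
  rfl

theorem ev_eq_sum (x : Fin s → S) (y : Fin (m + 1) → S)
    (G : MvPolynomial (Fin (m + 1)) (MvPolynomial (Fin s) A)) :
    ev x y G = ∑ u ∈ G.support, aeval x (G.coeff u) * ∏ i, y i ^ u i := by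
  rw [ev, eval₂_eq']
  rfl

/-- Ring homomorphisms out of the polynomial ring are determined by their values on the
variables. -/
theorem ev_hom_ext (f : MvPolynomial (Fin (m + 1)) (MvPolynomial (Fin s) A) →+* S)
    (x : Fin s → S) (y : Fin (m + 1) → S)
    (hA : ∀ r : A, f (C (C r)) = algebraMap A S r) (hx : ∀ i, f (C (X i)) = x i)
    (hy : ∀ i, f (X i) = y i) (G : MvPolynomial (Fin (m + 1)) (MvPolynomial (Fin s) A)) :
    f G = ev x y G := by
  rw [ev_eq]
  congr 1
  apply MvPolynomial.ringHom_ext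
  · intro r
    have : (f.comp C) = (eval₂Hom (algebraMap A S) x) := by
      apply MvPolynomial.ringHom_ext
      · intro r; simp [hA]
      · intro i; simp [hx]
    have h2 := RingHom.congr_fun this r
    simp only [RingHom.comp_apply] at h2
    rw [h2]
    simp [evHom]
  · intro i
    rw [hy]
    simp [evHom]

/-- Algebra homomorphisms. -/
theorem map_ev (f : S →ₐ[A] S') (x : Fin s → S) (y : Fin (m + 1) → S)
    (G : MvPolynomial (Fin (m + 1)) (MvPolynomial (Fin s) A)) :
    f (ev x y G) = ev (fun i => f (x i)) (fun i => f (y i)) G := by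
  have := ev_hom_ext (f.toRingHom.comp (evHom (A := A) x y)) (fun i => f (x i)) (fun i => f (y i))
    (by intro r; simp [evHom]) (by intro i; simp [evHom]) (by intro i; simp [evHom]) G
  rw [← this]
  rfl

/-- Evaluation of a composition. -/
theorem ev_ev {s' m' : ℕ} (x : Fin s → S) (y : Fin (m + 1) → S)
    (u : Fin s' → MvPolynomial (Fin s) A)
    (Y : Fin (m' + 1) → MvPolynomial (Fin (m + 1)) (MvPolynomial (Fin s) A))
    (G : MvPolynomial (Fin (m' + 1)) (MvPolynomial (Fin s') A)) :
    ev x y (ev (fun i => C (u i)) Y G) =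
      ev (fun i => aeval x (u i)) (fun i => ev x y (Y i)) G := by
  have := ev_hom_ext ((evHom (A := A) x y).comp (evHom (A := A) (fun i => C (u i)) Y))
    (fun i => aeval x (u i)) (fun i => ev x y (Y i))
    (by
      intro r
      simp only [RingHom.comp_apply, ← ev_eq, ev_C, aeval_C]
      rw [show algebraMap A (MvPolynomial (Fin (m + 1)) (MvPolynomial (Fin s) A)) r = C (C r)
        from rfl, ev_C, aeval_C])
    (by intro i; simp [← ev_eq]) (by intro i; simp [← ev_eq]) G
  rw [← this]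
  rfl

theorem ev_comp (x : Fin s → S) (y : Fin (m + 1) → S) (g : Fin s → MvPolynomial (Fin s) A)
    (F : Fin (m + 1) → MvPolynomial (Fin (m + 1)) (MvPolynomial (Fin s) A))
    (G : MvPolynomial (Fin (m + 1)) (MvPolynomial (Fin s) A)) :
    ev x y (comp g F G) = ev (fun i => aeval x (g i)) (fun i => ev x y (F i)) G :=
  ev_ev x y g F G

/-- Homogeneity. -/
theorem ev_smul (x : Fin s → S) (y : Fin (m + 1) → S) (c : S) (D : ℕ)
    (G : MvPolynomial (Fin (m + 1)) (MvPolynomial (Fin s) A)) (hG : G.IsHomogeneous D) :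
    ev x (fun i => c * y i) G = c ^ D * ev x y G := by
  rw [ev_eq_sum, ev_eq_sum, Finset.mul_sum]
  apply Finset.sum_congr rfl
  intro u hu
  have h1 : ∑ i, u i = D := by
    have := hG (mem_support_iff.mp hu)
    rw [← this]
    simp [Finsupp.weight_apply, Finsupp.sum_fintype]
  simp only [mul_pow, Finset.prod_mul_distrib, Finset.prod_pow_eq_pow_sum, h1]
  ring

/-- Compositions of forms are forms. -/
theorem ev_homog {s' m' : ℕ} (u : Fin s' → MvPolynomial (Fin s) A)
    (Y : Fin (m' + 1) → MvPolynomial (Fin (m + 1)) (MvPolynomial (Fin s) A)) (n e : ℕ)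
    (hY : ∀ i, (Y i).IsHomogeneous n)
    (G : MvPolynomial (Fin (m' + 1)) (MvPolynomial (Fin s') A)) (hG : G.IsHomogeneous e) :
    (ev (fun i => C (u i)) Y G).IsHomogeneous (n * e) := by
  rw [ev_eq_sum]
  apply IsHomogeneous.sum
  intro w hw
  have h1 : ∑ i, w i = e := by
    have := hG (mem_support_iff.mp hw)
    rw [← this]
    simp [Finsupp.weight_apply, Finsupp.sum_fintype]
  have h2 : (aeval (fun i => (C (u i) : MvPolynomial (Fin (m + 1)) (MvPolynomial (Fin s) A)))
      (G.coeff w)) = C (aeval u (G.coeff w)) := by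
    have := MvPolynomial.comp_aeval_apply u
      (IsScalarTower.toAlgHom A (MvPolynomial (Fin s) A)
        (MvPolynomial (Fin (m + 1)) (MvPolynomial (Fin s) A))) (G.coeff w)
    rw [← MvPolynomial.algebraMap_eq]
    exact this.symm
  rw [h2, ← h1]
  have h3 : (∏ i, Y i ^ w i).IsHomogeneous (∑ i, n * w i) :=
    IsHomogeneous.prod _ _ _ fun i _ => (hY i).pow (w i)
  have h4 := (isHomogeneous_C (Fin (m + 1)) (aeval u (G.coeff w))).mul h3
  rwa [zero_add, ← Finset.mul_sum] at h4

theorem comp_homog (g : Fin s → MvPolynomial (Fin s) A)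
    (F : Fin (m + 1) → MvPolynomial (Fin (m + 1)) (MvPolynomial (Fin s) A)) (e t : ℕ)
    (hF : ∀ i, (F i).IsHomogeneous e)
    (G : MvPolynomial (Fin (m + 1)) (MvPolynomial (Fin s) A)) (hG : G.IsHomogeneous t) :
    (comp g F G).IsHomogeneous (e * t) := ev_homog g F e t hF G hG

/-- The iterates are forms. -/
theorem itB_homog (g : Fin s → MvPolynomial (Fin s) A)
    (F : Fin (m + 1) → MvPolynomial (Fin (m + 1)) (MvPolynomial (Fin s) A)) (e : ℕ)
    (hF : ∀ i, (F i).IsHomogeneous e) (n : ℕ) :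
    ∀ i, ((itB g F n).2 i).IsHomogeneous (e ^ n) := by
  induction n with
  | zero => intro i; simpa [itB] using isHomogeneous_X _ i
  | succ n ih => intro i; rw [pow_succ]; exact ev_homog _ _ _ _ ih _ (hF i)

/-! ## Charts -/

theorem ell_hc (a : Fin m → ℕ) (z : Fin m → S) : ell a (hc a z) = 1 := by
  simp [ell, hc]

theorem ell_smul (a : Fin m → ℕ) (c : S) (y : Fin (m + 1) → S) :
    ell a (fun i => c * y i) = c * ell a y := by
  unfold ell
  rw [mul_add, Finset.mul_sum]
  congr 1
  apply Finset.sum_congr rfl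
  intro i _
  ring

theorem map_ell (f : S →ₐ[A] S') (a : Fin m → ℕ) (y : Fin (m + 1) → S) :
    f (ell a y) = ell a fun i => f (y i) := by
  simp [ell, map_sum]

theorem map_hc (f : S →ₐ[A] S') (a : Fin m → ℕ) (z : Fin m → S) :
    (fun i => f (hc a z i)) = hc a fun i => f (z i) := by
  funext i
  refine Fin.lastCases ?_ (fun j => ?_) i
  · simp [hc, map_sum]
  · simp [hc]

theorem hc_of_ell (a : Fin m → ℕ) (y : Fin (m + 1) → S) (h : ell a y = 1) :
    hc a (fun i => y i.castSucc) = y := by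
  funext i
  refine Fin.lastCases ?_ (fun j => ?_) i
  · simp only [hc, Fin.snoc_last]
    rw [← h]
    simp [ell]
  · simp [hc]

theorem hc_ch {K : Type} [Field K] (a : Fin m → ℕ) (y : Fin (m + 1) → K) (h : ell a y ≠ 0) :
    hc a (ch a y) = fun i => (ell a y)⁻¹ * y i := by
  have h1 : ell a (fun i => (ell a y)⁻¹ * y i) = 1 := by
    rw [ell_smul, inv_mul_cancel₀ h]
  rw [← hc_of_ell a _ h1]
  congr 1
  funext i
  simp only [ch]
  rw [div_eq_inv_mul]

/-- Evaluation in the chart. -/
theorem aeval_dhB (a : Fin m → ℕ) (x : Fin s → S) (z : Fin m → S)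
    (G : MvPolynomial (Fin (m + 1)) (MvPolynomial (Fin s) A)) :
    aeval (Sum.elim x z) (dhB a G) = ev x (hc a z) G := by
  unfold dhB
  rw [map_ev]
  congr 1
  · funext i; simp
  · rw [map_hc]; congr 1; funext i; simp

/-- Values of a form and of its restriction to the chart. -/
theorem ev_eq_chart {K : Type} [Field K] [Algebra A K] (a : Fin m → ℕ) (x : Fin s → K)
    (y : Fin (m + 1) → K) (h : ell a y ≠ 0) (t : ℕ)
    (G : MvPolynomial (Fin (m + 1)) (MvPolynomial (Fin s) A)) (hG : G.IsHomogeneous t) :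
    ev x y G = ell a y ^ t * aeval (Sum.elim x (ch a y)) (dhB a G) := by
  rw [aeval_dhB, hc_ch a y h, ev_smul _ _ _ _ _ hG, ← mul_assoc, ← mul_pow, mul_inv_cancel₀ h,
    one_pow, one_mul]

theorem aeval_qB (a : Fin m → ℕ) (x : Fin s → S) (z : Fin m → S)
    (F : Fin (m + 1) → MvPolynomial (Fin (m + 1)) (MvPolynomial (Fin s) A)) :
    aeval (Sum.elim x z) (qB a F) = ell a fun i => ev x (hc a z) (F i) := by
  unfold qB
  rw [map_ell]
  simp only [aeval_dhB]

theorem aeval_pB_inl (a : Fin m → ℕ) (x : Fin s → S) (z : Fin m → S)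
    (g : Fin s → MvPolynomial (Fin s) A)
    (F : Fin (m + 1) → MvPolynomial (Fin (m + 1)) (MvPolynomial (Fin s) A)) (i : Fin s) :
    aeval (Sum.elim x z) (pB a g F (Sum.inl i)) =
      aeval x (g i) * ell a fun i => ev x (hc a z) (F i) := by
  simp only [pB, map_mul, aeval_qB, aeval_rename]
  rfl

theorem aeval_pB_inr (a : Fin m → ℕ) (x : Fin s → S) (z : Fin m → S)
    (g : Fin s → MvPolynomial (Fin s) A)
    (F : Fin (m + 1) → MvPolynomial (Fin (m + 1)) (MvPolynomial (Fin s) A)) (i : Fin m) :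
    aeval (Sum.elim x z) (pB a g F (Sum.inr i)) = ev x (hc a z) (F i.castSucc) := by
  simp only [pB, aeval_dhB]

@[simp] theorem dhB_add (a : Fin m → ℕ)
    (G H : MvPolynomial (Fin (m + 1)) (MvPolynomial (Fin s) A)) :
    dhB a (G + H) = dhB a G + dhB a H := ev_add _ _ _ _

@[simp] theorem dhB_sub (a : Fin m → ℕ)
    (G H : MvPolynomial (Fin (m + 1)) (MvPolynomial (Fin s) A)) :
    dhB a (G - H) = dhB a G - dhB a H := ev_sub _ _ _ _

@[simp] theorem dhB_mul (a : Fin m → ℕ)
    (G H : MvPolynomial (Fin (m + 1)) (MvPolynomial (Fin s) A)) :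
    dhB a (G * H) = dhB a G * dhB a H := ev_mul _ _ _ _

@[simp] theorem dhB_zero (a : Fin m → ℕ) :
    dhB a (0 : MvPolynomial (Fin (m + 1)) (MvPolynomial (Fin s) A)) = 0 := ev_zero _ _

/-- The orbit in homogeneous coordinates and the iterates. -/
theorem orb_itB {K : Type} [Field K] [Algebra A K] (g : Fin s → MvPolynomial (Fin s) A)
    (F : Fin (m + 1) → MvPolynomial (Fin (m + 1)) (MvPolynomial (Fin s) A))
    (x : ℕ → Fin s → K) (y : ℕ → Fin (m + 1) → K)
    (hx : ∀ n i, x (n + 1) i = aeval (x n) (g i))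
    (hy : ∀ n i, y (n + 1) i = ev (x n) (y n) (F i)) (k : ℕ) :
    (∀ i, x k i = aeval (x 0) ((itB g F k).1 i)) ∧
      ∀ i, y k i = ev (x 0) (y 0) ((itB g F k).2 i) := by
  induction k with
  | zero => simp [itB]
  | succ k ih =>
    obtain ⟨h1, h2⟩ := ih
    constructor
    · intro i
      rw [hx]
      simp only [itB]
      rw [MvPolynomial.comp_aeval_apply (itB g F k).1 (aeval (x 0)) (g i)]
      congr 2
      funext j
      exact h1 j
    · intro i
      rw [hy]
      simp only [itB]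
      rw [ev_ev]
      congr 1
      · funext j; exact h1 j
      · funext j; exact h2 j

end

end Pool.Agent.Work.MP_91e6de_nt.DMR
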