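import Mathlib
import Pool.Agent.Work.MP_91e6de_nt.DMR.Stmts
import Pool.Agent.Work.MP_91e6de_nt.DMR.BasicP

set_option autoImplicit false

/-!
# The determinant method along orbits in all dimensions (MP_91e6de): statements, skew products
and Theorem A
-/

namespace Pool.Agent.Work.MP_91e6de_nt.DMR

open MvPolynomial NumberField IsDedekindDomain Height Filter Topology

/-- a hyperplane missing a piece of the orbit -/
def S_WndG : Prop := ∀ (K : Type) [Field K] [CharZero K] (m M : ℕ) (y : ℕ → Fin (m + 1) → K),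
  (∀ n, y n ≠ 0) → ∃ a : Fin m → ℕ, (∀ i, a i ≤ M + 1) ∧ ∀ n ≤ M, ell a (y n) ≠ 0

/-- orbits in the chart -/
def S_CoOB : Prop := ∀ (s m M e : ℕ) (A K : Type) [CommRing A] [Field K] [Algebra A K]
  (g : Fin s → MvPolynomial (Fin s) A)
  (F : Fin (m + 1) → MvPolynomial (Fin (m + 1)) (MvPolynomial (Fin s) A)) (a : Fin m → ℕ)
  (x : ℕ → Fin s → K) (y : ℕ → Fin (m + 1) → K), (∀ i, (F i).IsHomogeneous e) →
  (∀ n < M, ∀ i, x (n + 1) i = aeval (x n) (g i)) →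
  (∀ n < M, ∀ i, y (n + 1) i = ev (x n) (y n) (F i)) → (∀ n ≤ M, ell a (y n) ≠ 0) →
    IsOrb (pB a g F) (qB a F) M (fun n => Sum.elim (x n) (ch a (y n)))

/-- degrees in the chart -/
def S_CoDB : Prop := ∀ (s m : ℕ) (A : Type) [CommRing A] (g : Fin s → MvPolynomial (Fin s) A)
  (F : Fin (m + 1) → MvPolynomial (Fin (m + 1)) (MvPolynomial (Fin s) A)),
    ∃ E : ℕ, 1 ≤ E ∧ ∀ a : Fin m → ℕ, (∀ i, (pB a g F i).totalDegree ≤ E) ∧
      (qB a F).totalDegree ≤ E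

/-- heights in the chart -/
def S_CoHB : Prop := ∀ (s m : ℕ) (K : Type) [Field K] [NumberField K]
  (F : Fin (m + 1) → MvPolynomial (Fin (m + 1)) (MvPolynomial (Fin s) K)),
    ∃ C : ℝ, 0 ≤ C ∧ ∀ (a : Fin m → ℕ) (x : Fin s → K) (y : Fin (m + 1) → K), ell a y ≠ 0 →
      (∀ i, logHeight₁ (ch a y i) ≤ C * (1 + logHeight y + ∑ j, Real.log (a j + 1))) ∧
      logHeight₁ (aeval (Sum.elim x (ch a y)) (qB a F)) ≤
        C * (1 + ∑ i, logHeight₁ (x i) + logHeight y + ∑ j, Real.log (a j + 1))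

/-- common denominators -/
def S_RDc : Prop := ∀ (σ τ K : Type) [Fintype τ] [Field K] (Y : Set σ) (D : ℕ)
  (U : τ → MvPolynomial σ K) (W : MvPolynomial σ K), W ≠ 0 → 1 ≤ D →
  (∀ i, ∀ j ∈ Y, ¬ RD j D (U i) W) →
    ∃ (A : τ → MvPolynomial σ K) (B : MvPolynomial σ K), B ≠ 0 ∧
      (∀ i, A i * W = B * U i) ∧
      ∀ j ∈ Y, B.degreeOf j ≤ Fintype.card τ * D ∧ ∀ i, (A i).degreeOf j ≤ Fintype.card τ * D

/-- homogenisation -/
def S_Hz : Prop := ∀ (s m : ℕ) (K : Type) [Field K] (a : Fin m → ℕ),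
  (∀ (D : ℕ) (H : MvPolynomial (Fin s ⊕ Fin m) K),
    (∀ u ∈ H.support, ∑ j : Fin m, u (Sum.inr j) ≤ D) →
      ∃ G : MvPolynomial (Fin (m + 1)) (MvPolynomial (Fin s) K), G.IsHomogeneous D ∧
        dhB a G = H) ∧
  (∀ (D : ℕ) (G : MvPolynomial (Fin (m + 1)) (MvPolynomial (Fin s) K)), G.IsHomogeneous D →
    dhB a G = 0 → G = 0)

/-- iterates in the chart -/
def S_ItrB : Prop := ∀ (s m : ℕ) (K : Type) [Field K] (e E k : ℕ) (a : Fin m → ℕ)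
  (g : Fin s → MvPolynomial (Fin s) K)
  (F : Fin (m + 1) → MvPolynomial (Fin (m + 1)) (MvPolynomial (Fin s) K)),
  (∀ i, (F i).IsHomogeneous e) → (∀ i, (pB a g F i).totalDegree ≤ E) →
  (qB a F).totalDegree ≤ E → (∀ l ≤ k, (itr E (pB a g F) (qB a F) l).2 ≠ 0) →
    (ell a fun i => dhB a ((itB g F k).2 i)) ≠ 0 ∧
    ∀ i : Fin m, (itr E (pB a g F) (qB a F) k).1 (Sum.inr i) *
        (ell a fun i => dhB a ((itB g F k).2 i)) =
      (itr E (pB a g F) (qB a F) k).2 * dhB a ((itB g F k).2 i.castSucc)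

/-- large fibre degree gives a large partial reduced degree -/
def S_RDB : Prop := ∀ (s m : ℕ) (K : Type) [Field K] (e E k D : ℕ) (l : ℝ) (a : Fin m → ℕ)
  (g : Fin s → MvPolynomial (Fin s) K)
  (F : Fin (m + 1) → MvPolynomial (Fin (m + 1)) (MvPolynomial (Fin s) K)), 1 ≤ D →
  (∀ i, (F i).IsHomogeneous e) → (∀ i, (pB a g F i).totalDegree ≤ E) →
  (qB a F).totalDegree ≤ E → (∀ l ≤ k, (itr E (pB a g F) (qB a F) l).2 ≠ 0) →
  Gr g F k l → ((m ^ 2 * D : ℕ) : ℝ) < l →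
    ∃ i j : Fin m, RD (Sum.inr j) D ((itr E (pB a g F) (qB a F) k).1 (Sum.inr i))
      (itr E (pB a g F) (qB a F) k).2

/-- pull back of forms in the chart -/
def S_HomT : Prop := ∀ (s m : ℕ) (K : Type) [Field K] (e t D : ℕ) (a : Fin m → ℕ)
  (g : Fin s → MvPolynomial (Fin s) K)
  (F : Fin (m + 1) → MvPolynomial (Fin (m + 1)) (MvPolynomial (Fin s) K))
  (G : MvPolynomial (Fin (m + 1)) (MvPolynomial (Fin s) K)), (∀ i, (F i).IsHomogeneous e) →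
  G.IsHomogeneous t → t ≤ D → (dhB a G).totalDegree ≤ D → qB a F ≠ 0 →
    hsub D (dhB a G) (pB a g F) (qB a F) = qB a F ^ (D - t) * dhB a (comp g F G)

/-- a cyclic chain contains the rest of the orbit -/
def S_TailB : Prop := ∀ (s m : ℕ) (K : Type) [Field K] (e M : ℕ) (a : Fin m → ℕ)
  (g : Fin s → MvPolynomial (Fin s) K)
  (F : Fin (m + 1) → MvPolynomial (Fin (m + 1)) (MvPolynomial (Fin s) K))
  (x : ℕ → Fin s → K) (y : ℕ → Fin (m + 1) → K), (∀ i, (F i).IsHomogeneous e) →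
  OrbB g F x y → (∀ n ≤ M, ell a (y n) ≠ 0) →
  Cyc (pB a g F) (qB a F) M (fun n => Sum.elim (x n) (ch a (y n))) →
    ∃ (n0 t : ℕ) (G : MvPolynomial (Fin (m + 1)) (MvPolynomial (Fin s) K)), G ≠ 0 ∧
      G.IsHomogeneous t ∧ ∀ n, n0 ≤ n → ev (x n) (y n) G = 0

/-- finite sets of points -/
def S_FinB : Prop := ∀ (s m : ℕ) (K : Type) [Field K] (T : Finset ℕ) (y : ℕ → Fin (m + 1) → K),
  1 ≤ m → (∀ n ∈ T, y n ≠ 0) →
    ∃ (t : ℕ) (G : MvPolynomial (Fin (m + 1)) (MvPolynomial (Fin s) K)), G ≠ 0 ∧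
      G.IsHomogeneous t ∧ ∀ n ∈ T, ∀ x : Fin s → K, ev x (y n) G = 0

/-- integral coefficients -/
def S_IntB : Prop := ∀ (s m : ℕ) (K : Type) [Field K] [NumberField K]
  (g : Fin s → MvPolynomial (Fin s) K)
  (F : Fin (m + 1) → MvPolynomial (Fin (m + 1)) (MvPolynomial (Fin s) K)),
    ∃ c : K, c ≠ 0 ∧ ∀ a : Fin m → ℕ,
      ∃ (p : Fin s ⊕ Fin m → MvPolynomial (Fin s ⊕ Fin m) (𝓞 K))
        (q : MvPolynomial (Fin s ⊕ Fin m) (𝓞 K)),
        (∀ i, map (algebraMap (𝓞 K) K) (p i) = C c * pB a g F i) ∧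
        map (algebraMap (𝓞 K) K) q = C c * qB a F

/-- scaling of the numerators and the denominator: iterates -/
def S_ScalI : Prop := ∀ (σ K : Type) [Fintype σ] [Field K] (e : ℕ) (c : K)
  (p : σ → MvPolynomial σ K) (q : MvPolynomial σ K), c ≠ 0 → (∀ i, (p i).totalDegree ≤ e) →
  q.totalDegree ≤ e → ∀ k, ∃ N : ℕ,
    (∀ i, (itr e (fun i => C c * p i) (C c * q) k).1 i = C (c ^ N) * (itr e p q k).1 i) ∧
    (itr e (fun i => C c * p i) (C c * q) k).2 = C (c ^ N) * (itr e p q k).2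

/-- scaling of the numerators and the denominator: images of ideals -/
def S_ScalP : Prop := ∀ (σ K : Type) [Fintype σ] [Field K] (c : K)
  (p : σ → MvPolynomial σ K) (q : MvPolynomial σ K) (I J : Ideal (MvPolynomial σ K)), c ≠ 0 →
  Push (fun i => C c * p i) (C c * q) I J → Push p q I J

/-- parameters -/
def S_ParR : Prop := ∀ (kap r e k0 A m : ℕ) (lam : ℝ), 1 ≤ kap → 1 ≤ r → 1 ≤ e → 1 < lam →
  ∃ η : ℝ, 0 < η ∧ ∀ C : ℝ, ∃ N0 : ℕ, ∀ N : ℕ, N0 ≤ N → ∃ h k X : ℕ,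
    C * (N : ℝ) ^ η ≤ h ∧ 1 ≤ h ∧ k0 ≤ k ∧ 2 ≤ X ∧ h ≤ X ∧ k ≤ X ∧ e ^ k ≤ X ∧ X ^ A ≤ N ∧
    ((m * (DZ kap r h + 1) : ℕ) : ℝ) < lam ^ k

/-- one window: the orbit lies in a cyclic chain -/
def S_Win : Prop := ∀ (s m : ℕ) (K : Type) [Field K] [NumberField K]
  (g : Fin s → MvPolynomial (Fin s) K)
  (F : Fin (m + 1) → MvPolynomial (Fin (m + 1)) (MvPolynomial (Fin s) K)) (e : ℕ), 1 ≤ m →
  (∀ i, (F i).IsHomogeneous e) →
    ∃ (E A : ℕ) (C : ℝ), 1 ≤ E ∧ 0 ≤ C ∧ ∀ (x : ℕ → Fin s → K) (y : ℕ → Fin (m + 1) → K)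
      (a : Fin m → ℕ) (N h k X : ℕ) (H l : ℝ), OrbB g F x y →
      (∀ n n', n < n' → ¬ (x n = x n' ∧ ∀ i j, y n i * y n' j = y n j * y n' i)) →
      (∀ n ≤ 3 * N, ell a (y n) ≠ 0) → (∀ n ≤ 3 * N, ∀ i, logHeight₁ (x n i) ≤ H) →
      (∀ n ≤ 3 * N, logHeight (y n) ≤ H) → (∀ i, Real.log (a i + 1) ≤ H) →
      C * (1 + H) ≤ h → 1 ≤ h → 2 ≤ X → h ≤ X → k ≤ X → E ^ k ≤ X → X ^ A ≤ N →
      Gr g F k l → ((m ^ 2 * (DZ (Module.finrank ℚ K) (s + m) h + 1) : ℕ) : ℝ) < l →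
        Cyc (pB a g F) (qB a F) (3 * N) (fun n => Sum.elim (x n) (ch a (y n)))

/-- THEOREM U: slow orbits of skew products with exponential growth of the fibre degrees are not
dense -/
def S_TU : Prop := ∀ (s m : ℕ) (K : Type) [Field K] [NumberField K]
  (g : Fin s → MvPolynomial (Fin s) K)
  (F : Fin (m + 1) → MvPolynomial (Fin (m + 1)) (MvPolynomial (Fin s) K)) (e k0 : ℕ)
  (lam : ℝ), 1 ≤ m → (∀ i, (F i).IsHomogeneous e) → 1 < lam →
  (∀ k, k0 ≤ k → Gr g F k (lam ^ k)) →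
    ∃ η : ℝ, 0 < η ∧ ∀ (x : ℕ → Fin s → K) (y : ℕ → Fin (m + 1) → K) (C : ℝ), OrbB g F x y →
      (∀ (n : ℕ) (i : Fin s), logHeight₁ (x n i) ≤ C * ((n : ℝ) + 1) ^ η) →
      (∀ n : ℕ, logHeight (y n) ≤ C * ((n : ℝ) + 1) ^ η) →
        ∃ (t : ℕ) (G : MvPolynomial (Fin (m + 1)) (MvPolynomial (Fin s) K)), G ≠ 0 ∧
          G.IsHomogeneous t ∧ ∀ n, ev (x n) (y n) G = 0

/-! ## Theorem A: rational self-maps of projective space -/

/-- The iterates of the self-map `F` of projective space (forms, not reduced). -/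
noncomputable def itF {r : ℕ} {K : Type} [Field K]
    (F : Fin (r + 1) → MvPolynomial (Fin (r + 1)) K) :
    ℕ → Fin (r + 1) → MvPolynomial (Fin (r + 1)) K
  | 0 => fun i => X i
  | n + 1 => fun i => aeval (itF F n) (F i)

/-- The degree of the `n`-th iterate as a rational self-map of projective space: the smallest
degree of a nonzero tuple of forms proportional to `itF F n`. -/
noncomputable def dgF {r : ℕ} {K : Type} [Field K]
    (F : Fin (r + 1) → MvPolynomial (Fin (r + 1)) K) (n : ℕ) : ℕ :=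
  sInf {D | ∃ G : Fin (r + 1) → MvPolynomial (Fin (r + 1)) K, G ≠ 0 ∧
    (∀ i, (G i).IsHomogeneous D) ∧ ∀ i j, G i * itF F n j = G j * itF F n i}

/-- slow orbits of self-maps of projective space are not dense (the case `s = 0` of Theorem U) -/
def S_T2AG : Prop := ∀ (r : ℕ) (K : Type) [Field K] [NumberField K]
  (F : Fin (r + 1) → MvPolynomial (Fin (r + 1)) K) (e k0 : ℕ) (lam : ℝ), 1 ≤ r →
  (∀ i, (F i).IsHomogeneous e) → 1 < lam → (∀ k, k0 ≤ k → lam ^ k ≤ dgF F k) →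
    ∃ η : ℝ, 0 < η ∧ ∀ (P : ℕ → Fin (r + 1) → K) (C : ℝ), (∀ n, P n ≠ 0) →
      (∀ n i, P (n + 1) i = aeval (P n) (F i)) →
      (∀ n : ℕ, logHeight (P n) ≤ C * ((n : ℝ) + 1) ^ η) →
        ∃ (t : ℕ) (G : MvPolynomial (Fin (r + 1)) K), G ≠ 0 ∧ G.IsHomogeneous t ∧
          ∀ n, aeval (P n) G = 0

/-- THEOREM A: power gap for rational self-maps of projective space, all dimensions -/
def S_ThA : Prop := ∀ (r : ℕ) (K : Type) [Field K] [NumberField K]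
  (F : Fin (r + 1) → MvPolynomial (Fin (r + 1)) K) (e : ℕ) (δ : ℝ), 1 ≤ r →
  (∀ i, (F i).IsHomogeneous e) →
  Tendsto (fun n : ℕ => (dgF F n : ℝ) ^ ((1 : ℝ) / n)) atTop (𝓝 δ) → 1 < δ →
    ∃ η : ℝ, 0 < η ∧ ∀ P : ℕ → Fin (r + 1) → K, (∀ n, P n ≠ 0) →
      (∀ n i, P (n + 1) i = aeval (P n) (F i)) →
      (∀ (t : ℕ) (G : MvPolynomial (Fin (r + 1)) K), G.IsHomogeneous t →
        (∀ n, aeval (P n) G = 0) → G = 0) →
        ∀ C : ℝ, ∃ᶠ n : ℕ in atTop, C * (n : ℝ) ^ η < logHeight (P n) / Module.finrank ℚ K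

end Pool.Agent.Work.MP_91e6de_nt.DMR
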