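import Mathlib
import Pool.Agent.Work.MP_91e6de_nt.DM.StmtsB
import Pool.Agent.Work.MP_91e6de_nt.Bd.B03
import Pool.Agent.Work.MP_91e6de_nt.DMR.StmtsP

set_option autoImplicit false

/-!
# The determinant method along orbits in all dimensions (MP_91e6de): statements, Theorem B
(families of endomorphisms of projective space over unipotent affine maps)
-/

namespace Pool.Agent.Work.MP_91e6de_nt.DMR

open MvPolynomial NumberField IsDedekindDomain Height Filter Topology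

/-- The affine map `x ↦ U x + b`. -/
noncomputable def gU {s : ℕ} {K : Type} [Field K] (U : Matrix (Fin s) (Fin s) K)
    (b : Fin s → K) : Fin s → MvPolynomial (Fin s) K :=
  fun i => ∑ j, C (U i j) * X j + C (b i)

/-- No common nontrivial zero over the algebraic closure of the field `K (x)` of rational
functions on the base: the generic member of the family is an endomorphism of `ℙ^m`. -/
def NoZ {s m : ℕ} {K : Type} [Field K]
    (F : Fin (m + 1) → MvPolynomial (Fin (m + 1)) (MvPolynomial (Fin s) K)) : Prop :=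
  ∀ y : Fin (m + 1) → AlgebraicClosure (FractionRing (MvPolynomial (Fin s) K)),
    (∀ i, aeval y (F i) = 0) → y = 0

/-- The degree of the `n`-th iterate of `(x, y) ↦ (g (x), F (x, y))` (`g` an affine automorphism)
with respect to `O (1, 1)` on `ℙ^s × ℙ^m`. -/
noncomputable def dgB {s m : ℕ} {K : Type} [Field K] (g : Fin s → MvPolynomial (Fin s) K)
    (F : Fin (m + 1) → MvPolynomial (Fin (m + 1)) (MvPolynomial (Fin s) K)) (n : ℕ) : ℕ :=
  sInf {t | ∃ (δx δy : ℕ) (G : Fin (m + 1) → MvPolynomial (Fin (m + 1)) (MvPolynomial (Fin s) K)),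
    G ≠ 0 ∧ (∀ i, (G i).IsHomogeneous δy) ∧ (∀ i u, ((G i).coeff u).totalDegree ≤ δx) ∧
    (∀ i j, G i * (itB g F n).2 j = G j * (itB g F n).2 i) ∧
    t = (1 + δx) * (s + m - 1).choose m + δy * (s + m - 1).choose s}

/-- orbits of unipotent affine maps are polynomial -/
def S_BPol : Prop := ∀ (s : ℕ) (K : Type) [Field K] [CharZero K]
  (U : Matrix (Fin s) (Fin s) K) (b : Fin s → K) (x : ℕ → Fin s → K), IsNilpotent (U - 1) →
  (∀ n i, x (n + 1) i = aeval (x n) (gU U b i)) →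
    ∃ ξ : Fin s → Polynomial K, ∀ (n : ℕ) (i : Fin s), x n i = (ξ i).eval (n : K)

/-- heights of values of polynomials at integers -/
def S_HXP : Prop := ∀ (K : Type) [Field K] [NumberField K] (ξ : Polynomial K),
  ∃ C : ℝ, 0 ≤ C ∧ ∀ n : ℕ, logHeight₁ (ξ.eval (n : K)) ≤ C * Real.log (n + 2)

/-- a polynomial which does not vanish identically along a polynomial orbit -/
def S_BNV : Prop := ∀ (s : ℕ) (K : Type) [Field K] [CharZero K] (ξ : Fin s → Polynomial K)
  (x : ℕ → Fin s → K) (R : MvPolynomial (Fin s) K), (∀ n i, x n i = (ξ i).eval (n : K)) →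
  (∃ n, aeval (x n) R ≠ 0) → ∃ n1, ∀ n, n1 ≤ n → aeval (x n) R ≠ 0

/-- unipotent affine maps are automorphisms -/
def S_UInj : Prop := ∀ (s : ℕ) (K : Type) [Field K] (U : Matrix (Fin s) (Fin s) K)
  (b : Fin s → K), IsNilpotent (U - 1) →
    Function.Injective (aeval (gU U b) : MvPolynomial (Fin s) K →ₐ[K] MvPolynomial (Fin s) K) ∧
    ∀ i, (gU U b i).totalDegree ≤ 1

/-- Nullstellensatz with denominators -/
def S_Nul : Prop := ∀ (s m : ℕ) (K : Type) [Field K]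
  (F : Fin (m + 1) → MvPolynomial (Fin (m + 1)) (MvPolynomial (Fin s) K)) (d : ℕ), 1 ≤ d →
  (∀ i, (F i).IsHomogeneous d) → NoZ F →
    ∃ (t : ℕ) (ρ : MvPolynomial (Fin s) K)
      (H : Fin (m + 1) → Fin (m + 1) → MvPolynomial (Fin (m + 1)) (MvPolynomial (Fin s) K)),
      ρ ≠ 0 ∧ (∀ i j, (H i j).IsHomogeneous t) ∧
      ∀ i, C ρ * X i ^ (t + d) = ∑ j, H i j * F j

/-- upper height bound -/
def S_HUm : Prop := ∀ (s m : ℕ) (ι K : Type) [Fintype ι] [Field K] [NumberField K] (d : ℕ)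
  (F : ι → MvPolynomial (Fin (m + 1)) (MvPolynomial (Fin s) K)), (∀ i, (F i).IsHomogeneous d) →
    ∃ C : ℝ, 0 ≤ C ∧ ∀ (x : Fin s → K) (y : Fin (m + 1) → K),
      logHeight (fun i => ev x y (F i)) ≤ d * logHeight y + C * (1 + ∑ i, logHeight₁ (x i))

/-- lower height bound -/
def S_HLm : Prop := ∀ (s m : ℕ) (K : Type) [Field K] [NumberField K] (d t : ℕ)
  (F : Fin (m + 1) → MvPolynomial (Fin (m + 1)) (MvPolynomial (Fin s) K))
  (ρ : MvPolynomial (Fin s) K)
  (H : Fin (m + 1) → Fin (m + 1) → MvPolynomial (Fin (m + 1)) (MvPolynomial (Fin s) K)),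
  (∀ i j, (H i j).IsHomogeneous t) → (∀ i, C ρ * X i ^ (t + d) = ∑ j, H i j * F j) →
    ∃ C : ℝ, 0 ≤ C ∧ ∀ (x : Fin s → K) (y : Fin (m + 1) → K), aeval x ρ ≠ 0 →
      d * logHeight y ≤ logHeight (fun i => ev x y (F i)) + C * (1 + ∑ i, logHeight₁ (x i))

/-- the fibre degrees of the iterates are `d ^ k` -/
def S_DgLow : Prop := ∀ (s m : ℕ) (K : Type) [Field K] (d : ℕ)
  (g : Fin s → MvPolynomial (Fin s) K)
  (F : Fin (m + 1) → MvPolynomial (Fin (m + 1)) (MvPolynomial (Fin s) K)), 1 ≤ m → 1 ≤ d →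
  Function.Injective (aeval g : MvPolynomial (Fin s) K →ₐ[K] MvPolynomial (Fin s) K) →
  (∀ i, (F i).IsHomogeneous d) → NoZ F →
    ∀ k, (itB g F k).2 ≠ 0 ∧ Gr g F k ((d : ℝ) ^ k)

/-- the coefficients of the iterates -/
def S_DgX : Prop := ∀ (s m : ℕ) (K : Type) [Field K] (d : ℕ)
  (g : Fin s → MvPolynomial (Fin s) K)
  (F : Fin (m + 1) → MvPolynomial (Fin (m + 1)) (MvPolynomial (Fin s) K)), 2 ≤ d →
  (∀ i, (g i).totalDegree ≤ 1) → (∀ i, (F i).IsHomogeneous d) →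
    ∃ C : ℕ, ∀ k i u, (((itB g F k).2 i).coeff u).totalDegree ≤ C * d ^ k

/-- the degrees grow like `d ^ n` -/
def S_DgGB : Prop := ∀ (s m : ℕ) (K : Type) [Field K] (d : ℕ)
  (g : Fin s → MvPolynomial (Fin s) K)
  (F : Fin (m + 1) → MvPolynomial (Fin (m + 1)) (MvPolynomial (Fin s) K)), 1 ≤ m → 2 ≤ d →
  Function.Injective (aeval g : MvPolynomial (Fin s) K →ₐ[K] MvPolynomial (Fin s) K) →
  (∀ i, (g i).totalDegree ≤ 1) → (∀ i, (F i).IsHomogeneous d) → NoZ F →
    ∃ C : ℕ, ∀ n, d ^ n ≤ dgB g F n ∧ dgB g F n ≤ C * d ^ n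

/-- heights of affine points -/
def S_HtA : Prop := ∀ (s : ℕ) (K : Type) [Field K] [NumberField K] (x : Fin s → K),
  logHeight (Fin.cons 1 x : Fin (s + 1) → K) ≤ ∑ i, logHeight₁ (x i)

/-- THEOREM B: Kawaguchi-Silverman for families of endomorphisms of projective space over
unipotent affine maps -/
def S_ThB : Prop := ∀ (s m : ℕ) (K : Type) [Field K] [NumberField K] (d : ℕ)
  (U : Matrix (Fin s) (Fin s) K) (b : Fin s → K)
  (F : Fin (m + 1) → MvPolynomial (Fin (m + 1)) (MvPolynomial (Fin s) K))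
  (x : ℕ → Fin s → K) (y : ℕ → Fin (m + 1) → K), 1 ≤ m → 2 ≤ d → IsNilpotent (U - 1) →
  (∀ i, (F i).IsHomogeneous d) → NoZ F → OrbB (gU U b) F x y →
  (∀ (t : ℕ) (G : MvPolynomial (Fin (m + 1)) (MvPolynomial (Fin s) K)), G.IsHomogeneous t →
    (∀ n, ev (x n) (y n) G = 0) → G = 0) →
    Tendsto (fun n : ℕ => (dgB (gU U b) F n : ℝ) ^ ((1 : ℝ) / n)) atTop (𝓝 d) ∧
    Tendsto (fun n : ℕ => ((logHeight (Fin.cons 1 (x n) : Fin (s + 1) → K) + logHeight (y n)) /
      Module.finrank ℚ K) ^ ((1 : ℝ) / n)) atTop (𝓝 d)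

end Pool.Agent.Work.MP_91e6de_nt.DMR
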