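import Mathlib
import Pool.Agent.Work.MP_91e6de_nt.DMR.BasicP

set_option autoImplicit false

/-!
# The determinant method along orbits on arbitrary varieties (MP_91e6de): definitions

`IV` is a prime ideal, homogeneous in `y`, of the ring of polynomials in `y` with coefficients
polynomials in `x`: an irreducible subvariety `V` of `𝔸^s × ℙ^m`; for `s = 0` a projective variety.
-/

namespace Pool.Agent.Work.MP_91e6de_nt.DMR

open MvPolynomial NumberField

/-- `V` is an irreducible subvariety of `𝔸^s × ℙ^m`. -/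
structure VarV {s m : ℕ} {K : Type} [Field K]
    (IV : Ideal (MvPolynomial (Fin (m + 1)) (MvPolynomial (Fin s) K))) : Prop where
  prime : IV.IsPrime
  hom : ∀ G ∈ IV, ∀ j, homogeneousComponent j G ∈ IV
  ne : ∃ i, X i ∉ IV

/-- The ideal of `V` in the chart `ell a ≠ 0`. -/
noncomputable def chI {s m : ℕ} {K : Type} [Field K] (a : Fin m → ℕ)
    (IV : Ideal (MvPolynomial (Fin (m + 1)) (MvPolynomial (Fin s) K))) :
    Ideal (MvPolynomial (Fin s ⊕ Fin m) K) :=
  IV.map (evHom (A := K) (fun i => X (Sum.inl i)) (hc a fun i => X (Sum.inr i)))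

/-- `(g, F)` is a rational self-map of `V`: `V` is mapped to itself. -/
structure MapV {s m : ℕ} {K : Type} [Field K]
    (IV : Ideal (MvPolynomial (Fin (m + 1)) (MvPolynomial (Fin s) K)))
    (g : Fin s → MvPolynomial (Fin s) K)
    (F : Fin (m + 1) → MvPolynomial (Fin (m + 1)) (MvPolynomial (Fin s) K)) (e : ℕ) : Prop where
  hom : ∀ i, (F i).IsHomogeneous e
  ne : ∃ i, F i ∉ IV
  inv : ∀ G ∈ IV, comp g F G ∈ IV

/-- `Φ` is another representation of the rational map `F` on `V`, by forms of degree `t`. -/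
def RepV {s m : ℕ} {K : Type} [Field K]
    (IV : Ideal (MvPolynomial (Fin (m + 1)) (MvPolynomial (Fin s) K)))
    (F Φ : Fin (m + 1) → MvPolynomial (Fin (m + 1)) (MvPolynomial (Fin s) K)) (t : ℕ) : Prop :=
  (∀ i, (Φ i).IsHomogeneous t) ∧ ∀ i j, Φ i * F j - Φ j * F i ∈ IV

/-- `(x n, y n)` is a well-defined orbit on `V`: at every point the map is given by some
representation which does not vanish there. -/
structure OrbV {s m : ℕ} {K : Type} [Field K]
    (IV : Ideal (MvPolynomial (Fin (m + 1)) (MvPolynomial (Fin s) K)))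
    (g : Fin s → MvPolynomial (Fin s) K)
    (F : Fin (m + 1) → MvPolynomial (Fin (m + 1)) (MvPolynomial (Fin s) K))
    (x : ℕ → Fin s → K) (y : ℕ → Fin (m + 1) → K) : Prop where
  base : ∀ n i, x (n + 1) i = aeval (x n) (g i)
  on : ∀ n, ∀ G ∈ IV, ev (x n) (y n) G = 0
  ne : ∀ n, y n ≠ 0
  step : ∀ n, ∃ (t : ℕ)
    (Φ : Fin (m + 1) → MvPolynomial (Fin (m + 1)) (MvPolynomial (Fin s) K)),
    RepV IV F Φ t ∧ ∀ i, y (n + 1) i = ev (x n) (y n) (Φ i)

/-- The fibre degrees of the iterates on `V` are at least `l`: every tuple of forms which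
represents the `k`-th iterate on `V` has degree at least `l`. -/
def GrV {s m : ℕ} {K : Type} [Field K]
    (IV : Ideal (MvPolynomial (Fin (m + 1)) (MvPolynomial (Fin s) K)))
    (g : Fin s → MvPolynomial (Fin s) K)
    (F : Fin (m + 1) → MvPolynomial (Fin (m + 1)) (MvPolynomial (Fin s) K)) (k : ℕ)
    (l : ℝ) : Prop :=
  ∀ (D : ℕ) (G : Fin (m + 1) → MvPolynomial (Fin (m + 1)) (MvPolynomial (Fin s) K)),
    (∃ i, G i ∉ IV) → (∀ i, (G i).IsHomogeneous D) →
    (∀ i j, G i * (itB g F k).2 j - G j * (itB g F k).2 i ∈ IV) → l ≤ D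

/-- Combination of representations: `Φ_l + b_0 Φ_0 + ... + b_(l-1) Φ_(l-1)`. -/
noncomputable def cmb {s m l : ℕ} {K : Type} [Field K]
    (Φ : Fin (l + 1) → Fin (m + 1) → MvPolynomial (Fin (m + 1)) (MvPolynomial (Fin s) K))
    (b : Fin l → ℕ) : Fin (m + 1) → MvPolynomial (Fin (m + 1)) (MvPolynomial (Fin s) K) :=
  fun i => ell b fun j => Φ j i

/-- No relation: the powers of `U / W` up to the exponent `e'` are independent modulo `I` over the
polynomials of degree `≤ D`. -/
def NR {σ K : Type} [Field K] (I : Ideal (MvPolynomial σ K)) (D e' : ℕ)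
    (U W : MvPolynomial σ K) : Prop :=
  ∀ Q : ℕ → MvPolynomial σ K, (∀ c, (Q c).totalDegree ≤ D) →
    ∑ c ∈ Finset.range (e' + 1), Q c * U ^ c * W ^ (e' - c) ∈ I → ∀ c ≤ e', Q c ∈ I

/-- A cyclic chain of subvarieties of dimension `< r` through `P n0`; they satisfy all equations
of degree `≤ h` of the piece of orbit. -/
def Cyc2 {σ K : Type} [Fintype σ] [Field K] (p : σ → MvPolynomial σ K) (q : MvPolynomial σ K)
    (M h r : ℕ) (P : ℕ → σ → K) : Prop :=
  ∃ (n0 g : ℕ) (I : ℕ → Ideal (MvPolynomial σ K)), n0 ≤ M ∧ 1 ≤ g ∧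
    (∀ i ≤ g, (I i).IsPrime ∧ (∃ d < r, Dim (I i) d) ∧
      ∀ G : MvPolynomial σ K, G.totalDegree ≤ h → (∀ n ≤ M, aeval (P n) G = 0) → G ∈ I i) ∧
    (∀ i < g, Push p q (I i) (I (i + 1))) ∧ I g = I 0 ∧ On (I 0) (P n0)

/-- The degree in the monomials for the first step, relative version. -/
def DZ2 (kap r B h : ℕ) : ℕ := 2 * B * (7 * kap * (r + 1) * h) ^ r

/-- the `B` of the first level, relative version -/
def BZ2 (kap r B e k h : ℕ) : ℕ := (DZ2 kap r B h * (r + e ^ k) + 1) ^ r * B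

end Pool.Agent.Work.MP_91e6de_nt.DMR
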