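import Mathlib
import Pool.Agent.Work.MP_91e6de_nt.DMR.StmtsP
import Pool.Agent.Work.MP_91e6de_nt.DMR.DefsV

set_option autoImplicit false

/-!
# The determinant method along orbits on arbitrary varieties (MP_91e6de): statements
-/

namespace Pool.Agent.Work.MP_91e6de_nt.DMR

open MvPolynomial NumberField IsDedekindDomain Height Filter Topology
open Pool.Agent.Work.MP_91e6de_nt.DM (va nv)

/-! ## The core, relative to a prime ideal -/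

/-- the first hypersurface section -/
def S_RelZ2 : Prop := ∀ (K σ : Type) [Field K] [NumberField K] [Fintype σ]
  (p : σ → MvPolynomial σ (𝓞 K)) (q : MvPolynomial σ (𝓞 K)) (e h M k r B : ℕ)
  (P : ℕ → σ → K) (v : HeightOneSpectrum (𝓞 K)) (a : σ → 𝓞 K) (S : Finset ℕ)
  (I : Ideal (MvPolynomial σ K)) (i : σ),
  Setup p q e h M P → GoodAt v q P k a S → (∀ n ∈ S, n + k ≤ M) → I.IsPrime → Dim I r →
  1 ≤ r → 1 ≤ B → HB I B r → (∀ n ∈ S, On I (P n)) →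
  NR I (r * DZ2 (Module.finrank ℚ K) r B h) (DZ2 (Module.finrank ℚ K) r B h)
    (map (algebraMap (𝓞 K) K) ((itr e p q k).1 i)) (map (algebraMap (𝓞 K) K) (itr e p q k).2) →
    ∃ E : MvPolynomial σ K, E ∉ I ∧
      E.totalDegree ≤ DZ2 (Module.finrank ℚ K) r B h * (r + e ^ k) ∧
      ∀ n ∈ S, aeval (P n) E = 0

/-- the first level, relative version -/
def S_Start2 : Prop := ∀ (K σ : Type) [Field K] [NumberField K] [Fintype σ]
  (p : σ → MvPolynomial σ (𝓞 K)) (q : MvPolynomial σ (𝓞 K)) (e h M N k r B : ℕ)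
  (P : ℕ → σ → K) (I : Ideal (MvPolynomial σ K)) (i : σ), Setup p q e h M P → N + k ≤ M →
  I.IsPrime → Dim I r → 1 ≤ r → 1 ≤ B → HB I B r → (∀ n ≤ M, On I (P n)) →
  NR I (r * DZ2 (Module.finrank ℚ K) r B h) (DZ2 (Module.finrank ℚ K) r B h)
    (map (algebraMap (𝓞 K) K) ((itr e p q k).1 i)) (map (algebraMap (𝓞 K) K) (itr e p q k).2) →
    ∃ (I' : Ideal (MvPolynomial σ K)) (S : Finset ℕ),
      Lv P I' S (r - 1) (BZ2 (Module.finrank ℚ K) r B e k h)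
        (LG (Module.finrank ℚ K) (Fintype.card σ) k h * ((r - 1).factorial *
          BZ2 (Module.finrank ℚ K) r B e k h)) N N

/-- the chain is cyclic -/
def S_Chain2 : Prop := ∀ (K σ : Type) [Field K] [NumberField K] [Fintype σ]
  (p : σ → MvPolynomial σ (𝓞 K)) (q : MvPolynomial σ (𝓞 K)) (e h M : ℕ) (P : ℕ → σ → K)
  (I : Ideal (MvPolynomial σ K)) (S : Finset ℕ) (d B L N R R' : ℕ), Setup p q e h M P →
  1 ≤ d → 1 ≤ B → 1 ≤ L → Lv P I S d B L N R → 4 ≤ S.card →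
  R ≤ 3 * N → R + 12 * L ≤ R' → R' ≤ M →
  (∀ d' < d, ∀ (I' : Ideal (MvPolynomial σ K)) (S' : Finset ℕ),
    ¬ Lv P I' S' d' (BS (Module.finrank ℚ K) (Fintype.card σ) e d B h)
      (LS (Module.finrank ℚ K) (Fintype.card σ) e d B L h) N R') →
    Cyc2 (fun i => map (algebraMap (𝓞 K) K) (p i)) (map (algebraMap (𝓞 K) K) q) M h (d + 1) P

/-- exponents, first level, relative version -/
def S_Exp02 : Prop := ∀ kap n e B : ℕ, 1 ≤ kap → 1 ≤ n → 1 ≤ e → 1 ≤ B → ∃ a,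
  ∀ X h k r : ℕ, 2 ≤ X → h ≤ X → k ≤ X → e ^ k ≤ X → r ≤ n →
    BZ2 kap r B e k h ≤ X ^ a ∧ LG kap n k h * ((r - 1).factorial * BZ2 kap r B e k h) ≤ X ^ a

/-- MAIN THEOREM of the determinant method, relative version -/
def S_Core2 : Prop := ∀ kap n e B : ℕ, 1 ≤ kap → 1 ≤ n → 1 ≤ e → 1 ≤ B → ∃ A : ℕ,
  ∀ (K σ : Type) [Field K] [NumberField K] [Fintype σ]
  (p : σ → MvPolynomial σ (𝓞 K)) (q : MvPolynomial σ (𝓞 K)) (h M N k X r : ℕ)
  (P : ℕ → σ → K) (I : Ideal (MvPolynomial σ K)) (i : σ), Module.finrank ℚ K = kap →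
  Fintype.card σ = n → Setup p q e h M P → I.IsPrime → Dim I r → 1 ≤ r → HB I B r →
  (∀ n ≤ M, On I (P n)) → 3 * N ≤ M → 2 ≤ X → h ≤ X → k ≤ X → e ^ k ≤ X → X ^ A ≤ N →
  NR I (r * DZ2 kap r B h) (DZ2 kap r B h)
    (map (algebraMap (𝓞 K) K) ((itr e p q k).1 i)) (map (algebraMap (𝓞 K) K) (itr e p q k).2) →
    Cyc2 (fun i => map (algebraMap (𝓞 K) K) (p i)) (map (algebraMap (𝓞 K) K) q) M h r P

/-- functions satisfying a relation of small degree are quotients of small degree (conductor) -/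
def S_Cond : Prop := ∀ (σ K : Type) [Fintype σ] [Field K] [CharZero K]
  (I : Ideal (MvPolynomial σ K)) (r : ℕ), I.IsPrime → Dim I r → 1 ≤ r →
    ∃ C0 : ℕ, ∀ (D e' : ℕ) (U W : MvPolynomial σ K), W ∉ I → ¬ NR I D e' U W →
      ∃ A B : MvPolynomial σ K, B ∉ I ∧ A.totalDegree ≤ C0 * (D + 1) ∧
        B.totalDegree ≤ C0 * (D + 1) ∧ A * W - B * U ∈ I

/-- every prime has a Hilbert function bound of the right order -/
def S_ExHB : Prop := ∀ (σ K : Type) [Fintype σ] [Field K] (I : Ideal (MvPolynomial σ K))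
  (r : ℕ), I.IsPrime → Dim I r → ∃ B, 1 ≤ B ∧ HB I B r

/-! ## Charts of `V` -/

/-- the ideal of `V` in a chart -/
def S_ChI : Prop := ∀ (s m : ℕ) (K : Type) [Field K]
  (IV : Ideal (MvPolynomial (Fin (m + 1)) (MvPolynomial (Fin s) K))) (a : Fin m → ℕ), VarV IV →
  (ell a fun i => (X i : MvPolynomial (Fin (m + 1)) (MvPolynomial (Fin s) K))) ∉ IV →
    (chI a IV).IsPrime ∧
    ∀ (D : ℕ) (G : MvPolynomial (Fin (m + 1)) (MvPolynomial (Fin s) K)), G.IsHomogeneous D →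
      (dhB a G ∈ chI a IV ↔ G ∈ IV)

/-- dimension and Hilbert function in all charts -/
def S_HBV : Prop := ∀ (s m : ℕ) (K : Type) [Field K]
  (IV : Ideal (MvPolynomial (Fin (m + 1)) (MvPolynomial (Fin s) K))), VarV IV →
    ∃ r B : ℕ, 1 ≤ B ∧ ∀ a : Fin m → ℕ,
      (ell a fun i => (X i : MvPolynomial (Fin (m + 1)) (MvPolynomial (Fin s) K))) ∉ IV →
        Dim (chI a IV) r ∧ HB (chI a IV) B r

/-- finitely many representations are enough -/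
def S_RepFin : Prop := ∀ (s m : ℕ) (K : Type) [Field K]
  (IV : Ideal (MvPolynomial (Fin (m + 1)) (MvPolynomial (Fin s) K)))
  (g : Fin s → MvPolynomial (Fin s) K)
  (F : Fin (m + 1) → MvPolynomial (Fin (m + 1)) (MvPolynomial (Fin s) K)) (e : ℕ), VarV IV →
  MapV IV g F e →
    ∃ (l e' : ℕ)
      (Φ : Fin (l + 1) → Fin (m + 1) → MvPolynomial (Fin (m + 1)) (MvPolynomial (Fin s) K)),
      (∀ j, RepV IV F (Φ j) e') ∧
      ∀ (x : Fin s → K) (y : Fin (m + 1) → K) (t : ℕ)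
        (Ψ : Fin (m + 1) → MvPolynomial (Fin (m + 1)) (MvPolynomial (Fin s) K)),
        (∀ G ∈ IV, ev x y G = 0) → y ≠ 0 → RepV IV F Ψ t → (∃ i, ev x y (Ψ i) ≠ 0) →
          ∃ j i, ev x y (Φ j i) ≠ 0

/-- a combination of representations which does not vanish at the points of a window -/
def S_WndR : Prop := ∀ (s m l M : ℕ) (K : Type) [Field K] [CharZero K]
  (Φ : Fin (l + 1) → Fin (m + 1) → MvPolynomial (Fin (m + 1)) (MvPolynomial (Fin s) K))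
  (x : ℕ → Fin s → K) (y : ℕ → Fin (m + 1) → K),
  (∀ n ≤ M, ∃ j i, ev (x n) (y n) (Φ j i) ≠ 0) →
  (∀ n ≤ M, ∀ j j' i i', ev (x n) (y n) (Φ j i) * ev (x n) (y n) (Φ j' i') =
    ev (x n) (y n) (Φ j i') * ev (x n) (y n) (Φ j' i)) →
    ∃ b : Fin l → ℕ, (∀ j, b j ≤ M + 1) ∧ ∀ n ≤ M, ∃ i, ev (x n) (y n) (cmb Φ b i) ≠ 0

/-- representations: elementary facts -/
def S_RepA : Prop := ∀ (s m : ℕ) (K : Type) [Field K]
  (IV : Ideal (MvPolynomial (Fin (m + 1)) (MvPolynomial (Fin s) K)))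
  (g : Fin s → MvPolynomial (Fin s) K)
  (F : Fin (m + 1) → MvPolynomial (Fin (m + 1)) (MvPolynomial (Fin s) K)) (e : ℕ), VarV IV →
  MapV IV g F e →
    (∀ (t t' : ℕ) (Φ Ψ : Fin (m + 1) → MvPolynomial (Fin (m + 1)) (MvPolynomial (Fin s) K)),
      RepV IV F Φ t → RepV IV F Ψ t' → ∀ i j, Φ i * Ψ j - Φ j * Ψ i ∈ IV) ∧
    (∀ (l e' : ℕ)
      (Φ : Fin (l + 1) → Fin (m + 1) → MvPolynomial (Fin (m + 1)) (MvPolynomial (Fin s) K))
      (b : Fin l → ℕ), (∀ j, RepV IV F (Φ j) e') → RepV IV F (cmb Φ b) e') ∧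
    (∀ (t : ℕ) (Φ : Fin (m + 1) → MvPolynomial (Fin (m + 1)) (MvPolynomial (Fin s) K)),
      RepV IV F Φ t → (∃ i, Φ i ∉ IV) → MapV IV g Φ t) ∧
    (∀ (x : Fin s → K) (y : Fin (m + 1) → K) (c : K), (∀ G ∈ IV, ev x y G = 0) →
      ∀ G ∈ IV, ev x (fun i => c * y i) G = 0)

/-- iterates in the chart, modulo the ideal of `V` -/
def S_ItrV : Prop := ∀ (s m : ℕ) (K : Type) [Field K]
  (IV : Ideal (MvPolynomial (Fin (m + 1)) (MvPolynomial (Fin s) K)))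
  (g : Fin s → MvPolynomial (Fin s) K)
  (F Φ : Fin (m + 1) → MvPolynomial (Fin (m + 1)) (MvPolynomial (Fin s) K)) (e e' E k : ℕ)
  (a : Fin m → ℕ), VarV IV → MapV IV g F e → RepV IV F Φ e' →
  (ell a fun i => (X i : MvPolynomial (Fin (m + 1)) (MvPolynomial (Fin s) K))) ∉ IV →
  (∀ i, (pB a g Φ i).totalDegree ≤ E) → (qB a Φ).totalDegree ≤ E →
  (∀ l ≤ k, ∃ i, (itB g F l).2 i ∉ IV) →
  (∀ l ≤ k, (itr E (pB a g Φ) (qB a Φ) l).2 ∉ chI a IV) →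
    (ell a fun i => dhB a ((itB g F k).2 i)) ∉ chI a IV ∧
    ∀ i : Fin m, (itr E (pB a g Φ) (qB a Φ) k).1 (Sum.inr i) *
        (ell a fun i => dhB a ((itB g F k).2 i)) -
      (itr E (pB a g Φ) (qB a Φ) k).2 * dhB a ((itB g F k).2 i.castSucc) ∈ chI a IV

/-- growth of the degrees gives independence, uniformly in the chart -/
def S_NRV : Prop := ∀ (s m : ℕ) (K : Type) [Field K] [CharZero K]
  (IV : Ideal (MvPolynomial (Fin (m + 1)) (MvPolynomial (Fin s) K))) (r : ℕ), 1 ≤ m → 1 ≤ r →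
  VarV IV → (∀ a : Fin m → ℕ,
    (ell a fun i => (X i : MvPolynomial (Fin (m + 1)) (MvPolynomial (Fin s) K))) ∉ IV →
      Dim (chI a IV) r) →
    ∃ C1 : ℕ, ∀ (g : Fin s → MvPolynomial (Fin s) K)
      (F : Fin (m + 1) → MvPolynomial (Fin (m + 1)) (MvPolynomial (Fin s) K))
      (e k D e'' : ℕ) (l : ℝ) (a : Fin m → ℕ) (U : Fin m → MvPolynomial (Fin s ⊕ Fin m) K)
      (W : MvPolynomial (Fin s ⊕ Fin m) K), (∀ i, (F i).IsHomogeneous e) →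
      (ell a fun i => (X i : MvPolynomial (Fin (m + 1)) (MvPolynomial (Fin s) K))) ∉ IV →
      W ∉ chI a IV → (ell a fun i => dhB a ((itB g F k).2 i)) ∉ chI a IV →
      (∀ i : Fin m, U i * (ell a fun i => dhB a ((itB g F k).2 i)) -
        W * dhB a ((itB g F k).2 i.castSucc) ∈ chI a IV) →
      GrV IV g F k l → ((C1 * (D + 1) : ℕ) : ℝ) < l →
        ∃ i, NR (chI a IV) D e'' (U i) W

/-- uniform degrees, heights and integrality for combinations of representations -/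
def S_CoDV : Prop := ∀ (s m l : ℕ) (A : Type) [Field A] (g : Fin s → MvPolynomial (Fin s) A)
  (Φ : Fin (l + 1) → Fin (m + 1) → MvPolynomial (Fin (m + 1)) (MvPolynomial (Fin s) A)),
    ∃ E : ℕ, 1 ≤ E ∧ ∀ (a : Fin m → ℕ) (b : Fin l → ℕ),
      (∀ i, (pB a g (cmb Φ b) i).totalDegree ≤ E) ∧ (qB a (cmb Φ b)).totalDegree ≤ E

/-- heights -/
def S_CoHV : Prop := ∀ (s m l : ℕ) (K : Type) [Field K] [NumberField K]
  (Φ : Fin (l + 1) → Fin (m + 1) → MvPolynomial (Fin (m + 1)) (MvPolynomial (Fin s) K)),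
    ∃ C : ℝ, 0 ≤ C ∧ ∀ (a : Fin m → ℕ) (b : Fin l → ℕ) (x : Fin s → K) (y : Fin (m + 1) → K),
      ell a y ≠ 0 →
      (∀ i, logHeight₁ (ch a y i) ≤ C * (1 + logHeight y + ∑ j, Real.log (a j + 1))) ∧
      logHeight₁ (aeval (Sum.elim x (ch a y)) (qB a (cmb Φ b))) ≤
        C * (1 + ∑ i, logHeight₁ (x i) + logHeight y + ∑ j, Real.log (a j + 1) +
          ∑ j, Real.log (b j + 1))

/-- integrality -/
def S_IntV : Prop := ∀ (s m l : ℕ) (K : Type) [Field K] [NumberField K]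
  (g : Fin s → MvPolynomial (Fin s) K)
  (Φ : Fin (l + 1) → Fin (m + 1) → MvPolynomial (Fin (m + 1)) (MvPolynomial (Fin s) K)),
    ∃ c : K, c ≠ 0 ∧ ∀ (a : Fin m → ℕ) (b : Fin l → ℕ),
      ∃ (p : Fin s ⊕ Fin m → MvPolynomial (Fin s ⊕ Fin m) (𝓞 K))
        (q : MvPolynomial (Fin s ⊕ Fin m) (𝓞 K)),
        (∀ i, map (algebraMap (𝓞 K) K) (p i) = C c * pB a g (cmb Φ b) i) ∧
        map (algebraMap (𝓞 K) K) q = C c * qB a (cmb Φ b)

/-- one window -/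
def S_WinV : Prop := ∀ (s m l : ℕ) (K : Type) [Field K] [NumberField K]
  (IV : Ideal (MvPolynomial (Fin (m + 1)) (MvPolynomial (Fin s) K)))
  (g : Fin s → MvPolynomial (Fin s) K)
  (F : Fin (m + 1) → MvPolynomial (Fin (m + 1)) (MvPolynomial (Fin s) K))
  (Φ : Fin (l + 1) → Fin (m + 1) → MvPolynomial (Fin (m + 1)) (MvPolynomial (Fin s) K))
  (e e' r B : ℕ), 1 ≤ m → 1 ≤ r → 1 ≤ B → VarV IV → MapV IV g F e →
  (∀ j, RepV IV F (Φ j) e') →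
  (∀ a : Fin m → ℕ,
    (ell a fun i => (X i : MvPolynomial (Fin (m + 1)) (MvPolynomial (Fin s) K))) ∉ IV →
      Dim (chI a IV) r ∧ HB (chI a IV) B r) →
    ∃ (E A C1 : ℕ) (C : ℝ), 1 ≤ E ∧ 0 ≤ C ∧ ∀ (x : ℕ → Fin s → K) (y : ℕ → Fin (m + 1) → K)
      (a : Fin m → ℕ) (b : Fin l → ℕ) (N h k X : ℕ) (H lr : ℝ), OrbV IV g F x y →
      (∀ n n', n < n' → ¬ (x n = x n' ∧ ∀ i j, y n i * y n' j = y n j * y n' i)) →
      (∀ n ≤ 3 * N, ell a (y n) ≠ 0) →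
      (∀ n ≤ 3 * N, ∃ i, ev (x n) (y n) (cmb Φ b i) ≠ 0) →
      (∀ n ≤ 3 * N, ∀ i, logHeight₁ (x n i) ≤ H) → (∀ n ≤ 3 * N, logHeight (y n) ≤ H) →
      (∀ i, Real.log (a i + 1) ≤ H) → (∀ i, Real.log (b i + 1) ≤ H) →
      C * (1 + H) ≤ h → 1 ≤ h → 2 ≤ X → h ≤ X → k ≤ X → E ^ k ≤ X → X ^ A ≤ N →
      (∀ k' ≤ k, ∃ i, (itB g F k').2 i ∉ IV) → GrV IV g F k lr →
      ((C1 * h ^ (s + m) + C1 : ℕ) : ℝ) < lr →
        Cyc2 (pB a g (cmb Φ b)) (qB a (cmb Φ b)) (3 * N) h r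
          (fun n => Sum.elim (x n) (ch a (y n)))

/-- a cyclic chain contains the rest of the orbit -/
def S_TailV : Prop := ∀ (s m : ℕ) (K : Type) [Field K]
  (IV : Ideal (MvPolynomial (Fin (m + 1)) (MvPolynomial (Fin s) K)))
  (g : Fin s → MvPolynomial (Fin s) K)
  (F Φ : Fin (m + 1) → MvPolynomial (Fin (m + 1)) (MvPolynomial (Fin s) K))
  (e e' M h r : ℕ) (a : Fin m → ℕ) (x : ℕ → Fin s → K) (y : ℕ → Fin (m + 1) → K),
  VarV IV → MapV IV g F e → RepV IV F Φ e' → OrbV IV g F x y →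
  (∀ n ≤ M, ell a (y n) ≠ 0) → Dim (chI a IV) r →
  (∃ T : Finset (MvPolynomial (Fin (m + 1)) (MvPolynomial (Fin s) K)), IV = Ideal.span T ∧
    ∀ G ∈ T, (dhB a G).totalDegree ≤ h) →
  Cyc2 (pB a g Φ) (qB a Φ) M h r (fun n => Sum.elim (x n) (ch a (y n))) →
    ∃ (n0 t : ℕ) (G : MvPolynomial (Fin (m + 1)) (MvPolynomial (Fin s) K)), G ∉ IV ∧
      G.IsHomogeneous t ∧ ∀ n, n0 ≤ n → ev (x n) (y n) G = 0

/-- finite sets of points of `V` -/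
def S_FinV : Prop := ∀ (s m : ℕ) (K : Type) [Field K]
  (IV : Ideal (MvPolynomial (Fin (m + 1)) (MvPolynomial (Fin s) K))) (r : ℕ) (T : Finset ℕ)
  (x : ℕ → Fin s → K) (y : ℕ → Fin (m + 1) → K), VarV IV → 1 ≤ r →
  (∀ a : Fin m → ℕ,
    (ell a fun i => (X i : MvPolynomial (Fin (m + 1)) (MvPolynomial (Fin s) K))) ∉ IV →
      Dim (chI a IV) r) → (∀ n ∈ T, y n ≠ 0) → (∀ n ∈ T, ∀ G ∈ IV, ev (x n) (y n) G = 0) →
    ∃ (t : ℕ) (G : MvPolynomial (Fin (m + 1)) (MvPolynomial (Fin s) K)), G ∉ IV ∧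
      G.IsHomogeneous t ∧ ∀ n ∈ T, ev (x n) (y n) G = 0

/-- `V` is not a point -/
def S_GrPt : Prop := ∀ (s m : ℕ) (K : Type) [Field K]
  (IV : Ideal (MvPolynomial (Fin (m + 1)) (MvPolynomial (Fin s) K)))
  (g : Fin s → MvPolynomial (Fin s) K)
  (F : Fin (m + 1) → MvPolynomial (Fin (m + 1)) (MvPolynomial (Fin s) K)) (e k r : ℕ) (l : ℝ)
  (x : Fin s → K) (y : Fin (m + 1) → K) (a : Fin m → ℕ), VarV IV → MapV IV g F e →
  (∀ G ∈ IV, ev x y G = 0) → ell a y ≠ 0 → 0 < l → GrV IV g F k l → Dim (chI a IV) r → 1 ≤ r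

/-- all iterates are nondegenerate -/
def S_GrNd : Prop := ∀ (s m : ℕ) (K : Type) [Field K]
  (IV : Ideal (MvPolynomial (Fin (m + 1)) (MvPolynomial (Fin s) K)))
  (g : Fin s → MvPolynomial (Fin s) K)
  (F : Fin (m + 1) → MvPolynomial (Fin (m + 1)) (MvPolynomial (Fin s) K)) (e k0 : ℕ) (lam : ℝ),
  VarV IV → MapV IV g F e → 1 < lam → (∀ k, k0 ≤ k → GrV IV g F k (lam ^ k)) →
    ∀ k, ∃ i, (itB g F k).2 i ∉ IV

/-- THEOREM U, arbitrary varieties -/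
def S_TUV : Prop := ∀ (s m : ℕ) (K : Type) [Field K] [NumberField K]
  (IV : Ideal (MvPolynomial (Fin (m + 1)) (MvPolynomial (Fin s) K)))
  (g : Fin s → MvPolynomial (Fin s) K)
  (F : Fin (m + 1) → MvPolynomial (Fin (m + 1)) (MvPolynomial (Fin s) K)) (e k0 : ℕ)
  (lam : ℝ), 1 ≤ m → VarV IV → MapV IV g F e → 1 < lam →
  (∀ k, k0 ≤ k → GrV IV g F k (lam ^ k)) →
    ∃ η : ℝ, 0 < η ∧ ∀ (x : ℕ → Fin s → K) (y : ℕ → Fin (m + 1) → K) (C : ℝ),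
      OrbV IV g F x y →
      (∀ (n : ℕ) (i : Fin s), logHeight₁ (x n i) ≤ C * ((n : ℝ) + 1) ^ η) →
      (∀ n : ℕ, logHeight (y n) ≤ C * ((n : ℝ) + 1) ^ η) →
        ∃ (t : ℕ) (G : MvPolynomial (Fin (m + 1)) (MvPolynomial (Fin s) K)), G ∉ IV ∧
          G.IsHomogeneous t ∧ ∀ n, ev (x n) (y n) G = 0

/-! ## Theorem A for arbitrary projective varieties -/

/-- The degree of the `n`-th iterate on the projective variety with ideal `IX`: the smallest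
degree of a tuple of forms, not all zero on the variety, which represents the `n`-th iterate. -/
noncomputable def dgX {r : ℕ} {K : Type} [Field K] (IX : Ideal (MvPolynomial (Fin (r + 1)) K))
    (F : Fin (r + 1) → MvPolynomial (Fin (r + 1)) K) (n : ℕ) : ℕ :=
  sInf {D | ∃ G : Fin (r + 1) → MvPolynomial (Fin (r + 1)) K, (∃ i, G i ∉ IX) ∧
    (∀ i, (G i).IsHomogeneous D) ∧ ∀ i j, G i * itF F n j - G j * itF F n i ∈ IX}

/-- slow orbits on projective varieties are not dense (the case `s = 0` of Theorem U) -/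
def S_T2AX : Prop := ∀ (r : ℕ) (K : Type) [Field K] [NumberField K]
  (IX : Ideal (MvPolynomial (Fin (r + 1)) K))
  (F : Fin (r + 1) → MvPolynomial (Fin (r + 1)) K) (e k0 : ℕ) (lam : ℝ), 1 ≤ r →
  IX.IsPrime → (∀ G ∈ IX, ∀ j, homogeneousComponent j G ∈ IX) → (∃ i, X i ∉ IX) →
  (∀ i, (F i).IsHomogeneous e) → (∃ i, F i ∉ IX) → (∀ G ∈ IX, aeval F G ∈ IX) → 1 < lam →
  (∀ k, k0 ≤ k → lam ^ k ≤ dgX IX F k) →
    ∃ η : ℝ, 0 < η ∧ ∀ (P : ℕ → Fin (r + 1) → K) (C : ℝ), (∀ n, P n ≠ 0) →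
      (∀ n, ∀ G ∈ IX, aeval (P n) G = 0) →
      (∀ n, ∃ (t : ℕ) (Φ : Fin (r + 1) → MvPolynomial (Fin (r + 1)) K),
        (∀ i, (Φ i).IsHomogeneous t) ∧ (∀ i j, Φ i * F j - Φ j * F i ∈ IX) ∧
        ∀ i, P (n + 1) i = aeval (P n) (Φ i)) →
      (∀ n : ℕ, logHeight (P n) ≤ C * ((n : ℝ) + 1) ^ η) →
        ∃ (t : ℕ) (G : MvPolynomial (Fin (r + 1)) K), G ∉ IX ∧ G.IsHomogeneous t ∧
          ∀ n, aeval (P n) G = 0

/-- THEOREM A*: power gap for rational self-maps of arbitrary projective varieties -/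
def S_ThAX : Prop := ∀ (r : ℕ) (K : Type) [Field K] [NumberField K]
  (IX : Ideal (MvPolynomial (Fin (r + 1)) K))
  (F : Fin (r + 1) → MvPolynomial (Fin (r + 1)) K) (e : ℕ) (δ : ℝ),
  IX.IsPrime → (∀ G ∈ IX, ∀ j, homogeneousComponent j G ∈ IX) → (∃ i, X i ∉ IX) →
  (∀ i, (F i).IsHomogeneous e) → (∃ i, F i ∉ IX) → (∀ G ∈ IX, aeval F G ∈ IX) →
  Tendsto (fun n : ℕ => (dgX IX F n : ℝ) ^ ((1 : ℝ) / n)) atTop (𝓝 δ) → 1 < δ →
    ∃ η : ℝ, 0 < η ∧ ∀ P : ℕ → Fin (r + 1) → K, (∀ n, P n ≠ 0) →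
      (∀ n, ∀ G ∈ IX, aeval (P n) G = 0) →
      (∀ n, ∃ (t : ℕ) (Φ : Fin (r + 1) → MvPolynomial (Fin (r + 1)) K),
        (∀ i, (Φ i).IsHomogeneous t) ∧ (∀ i j, Φ i * F j - Φ j * F i ∈ IX) ∧
        ∀ i, P (n + 1) i = aeval (P n) (Φ i)) →
      (∀ (t : ℕ) (G : MvPolynomial (Fin (r + 1)) K), G.IsHomogeneous t →
        (∀ n, aeval (P n) G = 0) → G ∈ IX) →
        ∀ C : ℝ, ∃ᶠ n : ℕ in atTop, C * (n : ℝ) ^ η < logHeight (P n) / Module.finrank ℚ K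

end Pool.Agent.Work.MP_91e6de_nt.DMR
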