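import Mathlib
import Pool.Agent.Work.MP_91e6de_nt.DMR.DefsV

set_option autoImplicit false

/-!
# The determinant method along orbits (MP_91e6de): definitions, all orbits of families of
endomorphisms of projective space over the translation
-/

namespace Pool.Agent.Work.MP_91e6de_nt.DMR

open MvPolynomial NumberField

/-- The binary form `H`, with coefficients polynomials in `x`, at two polynomials `U`, `V`. -/
noncomputable def bin {s m : ℕ} {K : Type} [Field K]
    (H : MvPolynomial (Fin (1 + 1)) (MvPolynomial (Fin s) K))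
    (U V : MvPolynomial (Fin (m + 1)) (MvPolynomial (Fin s) K)) :
    MvPolynomial (Fin (m + 1)) (MvPolynomial (Fin s) K) :=
  ev (fun l => (C (X l : MvPolynomial (Fin s) K) :
    MvPolynomial (Fin (m + 1)) (MvPolynomial (Fin s) K))) ![U, V] H

/-- `V` has relative dimension zero over the base: any two homogeneous coordinates satisfy a
nonzero binary form on `V`. -/
def RZ {s m : ℕ} {K : Type} [Field K]
    (IV : Ideal (MvPolynomial (Fin (m + 1)) (MvPolynomial (Fin s) K))) : Prop :=
  ∀ i j : Fin (m + 1), ∃ (t : ℕ) (H : MvPolynomial (Fin (1 + 1)) (MvPolynomial (Fin s) K)),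
    H ≠ 0 ∧ H.IsHomogeneous t ∧ bin H (X i) (X j) ∈ IV

/-- The forms of `F` have no common zero over the generic point of the base: Nullstellensatz
identities. -/
def NlF {s m : ℕ} {K : Type} [Field K]
    (F : Fin (m + 1) → MvPolynomial (Fin (m + 1)) (MvPolynomial (Fin s) K)) (d : ℕ) : Prop :=
  ∃ (t : ℕ) (ρ : MvPolynomial (Fin s) K)
    (H : Fin (m + 1) → Fin (m + 1) → MvPolynomial (Fin (m + 1)) (MvPolynomial (Fin s) K)),
    ρ ≠ 0 ∧ (∀ i j, (H i j).IsHomogeneous t) ∧ ∀ i, C ρ * X i ^ (t + d) = ∑ j, H i j * F j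

/-- The translation `x ↦ x + b` of the affine line. -/
noncomputable def gT {K : Type} [Field K] (b : K) : Fin 1 → MvPolynomial (Fin 1) K :=
  fun _ => X 0 + C b

/-- `V` is invariant under the `c`-th iterate. -/
def InvV {s m : ℕ} {K : Type} [Field K]
    (IV : Ideal (MvPolynomial (Fin (m + 1)) (MvPolynomial (Fin s) K)))
    (g : Fin s → MvPolynomial (Fin s) K)
    (F : Fin (m + 1) → MvPolynomial (Fin (m + 1)) (MvPolynomial (Fin s) K)) (c : ℕ) : Prop :=
  ∀ G ∈ IV, comp (itB g F c).1 (itB g F c).2 G ∈ IV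

/-- The point `(x, y)` lies on `V`. -/
def OnV {s m : ℕ} {K : Type} [Field K]
    (IV : Ideal (MvPolynomial (Fin (m + 1)) (MvPolynomial (Fin s) K))) (x : Fin s → K)
    (y : Fin (m + 1) → K) : Prop :=
  ∀ G ∈ IV, ev x y G = 0

/-- `V` contains no vertical hypersurface: no nonzero polynomial in `x` vanishes on it. -/
def Hor {s m : ℕ} {K : Type} [Field K]
    (IV : Ideal (MvPolynomial (Fin (m + 1)) (MvPolynomial (Fin s) K))) : Prop :=
  ∀ a : MvPolynomial (Fin s) K, C a ∈ IV → a = 0

/-- A finite union of arithmetic progressions `{a + r k : k ≥ 0}` (`r = 0` allowed). -/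
def FUAP (S : Set ℕ) : Prop :=
  ∃ T : Finset (ℕ × ℕ), S = {n | ∃ p ∈ T, ∃ k : ℕ, n = p.1 + p.2 * k}

/-- The zero set of `𝒢` in `𝔸^s × ℙ^m` has relative dimension `≤ 0` over the generic point of
the base: any two homogeneous coordinates satisfy a nonzero binary form on it. -/
def CvV {s m : ℕ} {K : Type} [Field K]
    (𝒢 : Set (MvPolynomial (Fin (m + 1)) (MvPolynomial (Fin s) K))) : Prop :=
  ∀ i j : Fin (m + 1), ∃ (t : ℕ) (H : MvPolynomial (Fin (1 + 1)) (MvPolynomial (Fin s) K)),
    H ≠ 0 ∧ H.IsHomogeneous t ∧ ∀ (x : Fin s → K) (y : Fin (m + 1) → K), y ≠ 0 →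
      (∀ G ∈ 𝒢, ev x y G = 0) → ev x ![y i, y j] H = 0

end Pool.Agent.Work.MP_91e6de_nt.DMR
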