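import Mathlib
import Pool.Agent.Work.MP_91e6de_nt.DM.StmtsB
import Pool.Agent.Work.MP_91e6de_nt.Bd.B03
import Pool.Agent.Work.MP_91e6de_nt.DMR.StmtsV
import Pool.Agent.Work.MP_91e6de_nt.DMR.StmtsB
import Pool.Agent.Work.MP_91e6de_nt.DMR.DefsW

set_option autoImplicit false

/-!
# The determinant method along orbits (MP_91e6de): statements, all orbits of families of
endomorphisms of projective space over the translation; dynamical Mordell-Lang for curves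
-/

namespace Pool.Agent.Work.MP_91e6de_nt.DMR

open MvPolynomial NumberField IsDedekindDomain Height Filter Topology

/-- iterates of iterates -/
def S_ItIt : Prop := ∀ (s m : ℕ) (K : Type) [Field K] (g : Fin s → MvPolynomial (Fin s) K)
  (F : Fin (m + 1) → MvPolynomial (Fin (m + 1)) (MvPolynomial (Fin s) K)),
  (∀ c k, itB (itB g F c).1 (itB g F c).2 k = itB g F (c * k)) ∧
  (∀ k l G, comp (itB g F k).1 (itB g F k).2 (comp (itB g F l).1 (itB g F l).2 G) =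
    comp (itB g F (k + l)).1 (itB g F (k + l)).2 G)

/-- the Nullstellensatz identities for the iterates -/
def S_NlIt : Prop := ∀ (s m : ℕ) (K : Type) [Field K] (g : Fin s → MvPolynomial (Fin s) K)
  (F : Fin (m + 1) → MvPolynomial (Fin (m + 1)) (MvPolynomial (Fin s) K)) (d : ℕ), 1 ≤ d →
  Function.Injective (aeval g : MvPolynomial (Fin s) K →ₐ[K] MvPolynomial (Fin s) K) →
  (∀ i, (F i).IsHomogeneous d) → NlF F d → ∀ k, NlF (itB g F k).2 (d ^ k)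

/-- lower bound for the degrees on invariant subvarieties of positive relative dimension -/
def S_GrVB : Prop := ∀ (s m : ℕ) (K : Type) [Field K]
  (IV : Ideal (MvPolynomial (Fin (m + 1)) (MvPolynomial (Fin s) K)))
  (g : Fin s → MvPolynomial (Fin s) K)
  (F : Fin (m + 1) → MvPolynomial (Fin (m + 1)) (MvPolynomial (Fin s) K)) (d : ℕ), 1 ≤ d →
  VarV IV → Hor IV →
  Function.Injective (aeval g : MvPolynomial (Fin s) K →ₐ[K] MvPolynomial (Fin s) K) →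
  (∀ i, (F i).IsHomogeneous d) → NlF F d → ¬ RZ IV → ∀ k, GrV IV g F k ((d : ℝ) ^ k)

/-- a periodic subvariety from a cyclic chain -/
def S_CycW : Prop := ∀ (s m : ℕ) (K : Type) [Field K]
  (IV : Ideal (MvPolynomial (Fin (m + 1)) (MvPolynomial (Fin s) K)))
  (g : Fin s → MvPolynomial (Fin s) K)
  (F : Fin (m + 1) → MvPolynomial (Fin (m + 1)) (MvPolynomial (Fin s) K))
  (e M h r : ℕ) (a : Fin m → ℕ) (x : ℕ → Fin s → K) (y : ℕ → Fin (m + 1) → K),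
  VarV IV → MapV IV g F e → (∀ n ≤ M, OnV IV (x n) (y n)) →
  (∀ n ≤ M, ell a (y n) ≠ 0) → Dim (chI a IV) r →
  (∃ T : Finset (MvPolynomial (Fin (m + 1)) (MvPolynomial (Fin s) K)), IV = Ideal.span T ∧
    ∀ G ∈ T, (dhB a G).totalDegree ≤ h) →
  Cyc2 (pB a g F) (qB a F) M h r (fun n => Sum.elim (x n) (ch a (y n))) →
    ∃ (n0 c : ℕ) (IW : Ideal (MvPolynomial (Fin (m + 1)) (MvPolynomial (Fin s) K))), 1 ≤ c ∧
      VarV IW ∧ IV < IW ∧ InvV IW g F c ∧ OnV IW (x n0) (y n0)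

/-- THEOREM U, single representation: the slow orbit meets a smaller periodic subvariety -/
def S_TUP : Prop := ∀ (s m : ℕ) (K : Type) [Field K] [NumberField K]
  (IV : Ideal (MvPolynomial (Fin (m + 1)) (MvPolynomial (Fin s) K)))
  (g : Fin s → MvPolynomial (Fin s) K)
  (F : Fin (m + 1) → MvPolynomial (Fin (m + 1)) (MvPolynomial (Fin s) K)) (e k0 : ℕ)
  (lam : ℝ), 1 ≤ m → VarV IV → MapV IV g F e → 1 < lam →
  (∀ k, k0 ≤ k → GrV IV g F k (lam ^ k)) →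
    ∃ η : ℝ, 0 < η ∧ ∀ (x : ℕ → Fin s → K) (y : ℕ → Fin (m + 1) → K) (C : ℝ),
      OrbB g F x y → (∀ n, OnV IV (x n) (y n)) → Function.Injective x →
      (∀ (n : ℕ) (i : Fin s), logHeight₁ (x n i) ≤ C * ((n : ℝ) + 1) ^ η) →
      (∀ n : ℕ, logHeight (y n) ≤ C * ((n : ℝ) + 1) ^ η) →
        ∃ (n0 c : ℕ) (IW : Ideal (MvPolynomial (Fin (m + 1)) (MvPolynomial (Fin s) K))),
          1 ≤ c ∧ VarV IW ∧ IV < IW ∧ InvV IW g F c ∧ OnV IW (x n0) (y n0)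

/-- sub-orbits -/
def S_SubO : Prop := ∀ (s m : ℕ) (K : Type) [Field K]
  (IW : Ideal (MvPolynomial (Fin (m + 1)) (MvPolynomial (Fin s) K)))
  (g : Fin s → MvPolynomial (Fin s) K)
  (F : Fin (m + 1) → MvPolynomial (Fin (m + 1)) (MvPolynomial (Fin s) K)) (n0 c : ℕ)
  (x : ℕ → Fin s → K) (y : ℕ → Fin (m + 1) → K), OrbB g F x y →
    OrbB (itB g F c).1 (itB g F c).2 (fun k => x (n0 + c * k)) (fun k => y (n0 + c * k)) ∧
    (InvV IW g F c → OnV IW (x n0) (y n0) → ∀ k, OnV IW (x (n0 + c * k)) (y (n0 + c * k)))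

/-- slow orbits lie on a periodic subvariety of relative dimension zero -/
def S_MaxP : Prop := ∀ (m : ℕ) (K : Type) [Field K] [NumberField K] (d : ℕ) (b : K)
  (F : Fin (m + 1) → MvPolynomial (Fin (m + 1)) (MvPolynomial (Fin 1) K))
  (x : ℕ → Fin 1 → K) (y : ℕ → Fin (m + 1) → K), 1 ≤ m → 2 ≤ d → b ≠ 0 →
  (∀ i, (F i).IsHomogeneous d) → NlF F d → OrbB (gT b) F x y →
  (∃ C : ℝ, ∀ n : ℕ, logHeight (y n) ≤ C * Real.log (n + 2)) →
    ∃ (n0 c : ℕ) (IW : Ideal (MvPolynomial (Fin (m + 1)) (MvPolynomial (Fin 1) K))),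
      1 ≤ c ∧ VarV IW ∧ Hor IW ∧ RZ IW ∧ InvV IW (gT b) F c ∧ OnV IW (x n0) (y n0)

/-- relative dimension zero: two forms of the same degree satisfy a binary form -/
def S_AlgZ : Prop := ∀ (s m : ℕ) (K : Type) [Field K]
  (IW : Ideal (MvPolynomial (Fin (m + 1)) (MvPolynomial (Fin s) K))) (e : ℕ)
  (U V : MvPolynomial (Fin (m + 1)) (MvPolynomial (Fin s) K)), VarV IW → Hor IW → RZ IW →
  U.IsHomogeneous e → V.IsHomogeneous e →
    ∃ (t : ℕ) (H : MvPolynomial (Fin (1 + 1)) (MvPolynomial (Fin s) K)),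
      H ≠ 0 ∧ H.IsHomogeneous t ∧ bin H U V ∈ IW

/-- relative dimension zero: a form which does not vanish on `W` vanishes over finitely many
points only -/
def S_FinZ : Prop := ∀ (s m : ℕ) (K : Type) [Field K]
  (IW : Ideal (MvPolynomial (Fin (m + 1)) (MvPolynomial (Fin s) K))) (e : ℕ)
  (G : MvPolynomial (Fin (m + 1)) (MvPolynomial (Fin s) K)), VarV IW → Hor IW → RZ IW →
  G.IsHomogeneous e → G ∉ IW →
    ∃ a : MvPolynomial (Fin s) K, a ≠ 0 ∧ ∀ (x : Fin s → K) (y : Fin (m + 1) → K), y ≠ 0 →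
      OnV IW x y → ev x y G = 0 → aeval x a = 0

/-- the images of `W` -/
def S_ImW : Prop := ∀ (m : ℕ) (K : Type) [Field K] (d : ℕ) (b : K)
  (F : Fin (m + 1) → MvPolynomial (Fin (m + 1)) (MvPolynomial (Fin 1) K)) (r c : ℕ)
  (IW : Ideal (MvPolynomial (Fin (m + 1)) (MvPolynomial (Fin 1) K))), 1 ≤ d →
  (∀ i, (F i).IsHomogeneous d) → NlF F d → VarV IW → Hor IW → RZ IW → InvV IW (gT b) F c →
    ∃ IW' : Ideal (MvPolynomial (Fin (m + 1)) (MvPolynomial (Fin 1) K)),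
      VarV IW' ∧ Hor IW' ∧ RZ IW' ∧ InvV IW' (gT b) F c ∧
      ∀ (x : ℕ → Fin 1 → K) (y : ℕ → Fin (m + 1) → K), OrbB (gT b) F x y → ∀ n,
        OnV IW (x n) (y n) → OnV IW' (x (n + r)) (y (n + r))

/-- orbits over the translation: the base, zeros of polynomials -/
def S_BasT : Prop := ∀ (K : Type) [Field K] [NumberField K] (b : K) (x : ℕ → Fin 1 → K),
  b ≠ 0 → (∀ n i, x (n + 1) i = aeval (x n) (gT b i)) →
    Function.Injective x ∧
    (∀ a : MvPolynomial (Fin 1) K, a ≠ 0 → {n : ℕ | aeval (x n) a = 0}.Finite) ∧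
    (∃ C : ℝ, 0 ≤ C ∧ ∀ n : ℕ, logHeight₁ (x n 0) ≤ C * Real.log (n + 2)) ∧
    (∃ C : ℝ, ∀ n : ℕ, Real.log (n + 1) ≤ logHeight₁ (x n 0) + C) ∧
    Function.Injective
      (aeval (gT b) : MvPolynomial (Fin 1) K →ₐ[K] MvPolynomial (Fin 1) K) ∧
    (∀ n, logHeight (Fin.cons 1 (x n) : Fin (1 + 1) → K) = logHeight₁ (x n 0))

/-- dichotomy for the heights of the orbits -/
def S_DicW : Prop := ∀ (m : ℕ) (K : Type) [Field K] [NumberField K] (d : ℕ) (b : K)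
  (F : Fin (m + 1) → MvPolynomial (Fin (m + 1)) (MvPolynomial (Fin 1) K))
  (x : ℕ → Fin 1 → K) (y : ℕ → Fin (m + 1) → K), 2 ≤ d → b ≠ 0 →
  (∀ i, (F i).IsHomogeneous d) → NlF F d → OrbB (gT b) F x y →
    (∃ C : ℝ, 0 ≤ C ∧ ∀ n : ℕ, logHeight (y n) ≤ C * (d : ℝ) ^ n) ∧
    ((∃ c : ℝ, 0 < c ∧ ∀ᶠ n : ℕ in atTop, c * (d : ℝ) ^ n ≤ logHeight (y n)) ∨
    (∃ C : ℝ, ∀ n : ℕ, logHeight (y n) ≤ C * Real.log (n + 2)))

/-- heights of roots of binary forms -/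
def S_RootH : Prop := ∀ (K : Type) [Field K] [NumberField K] (t : ℕ), ∃ C : ℝ, 0 ≤ C ∧
  ∀ (q : Fin (t + 1) → K) (w : K), q ≠ 0 → ∑ a, q a * w ^ (a : ℕ) = 0 →
    logHeight₁ w ≤ logHeight q + C

/-- heights of the points of relative curves -/
def S_HtCv : Prop := ∀ (s m : ℕ) (K : Type) [Field K] [NumberField K]
  (𝒢 : Set (MvPolynomial (Fin (m + 1)) (MvPolynomial (Fin s) K))), CvV 𝒢 →
    ∃ (a : MvPolynomial (Fin s) K) (C : ℝ), a ≠ 0 ∧ 0 ≤ C ∧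
      ∀ (x : Fin s → K) (y : Fin (m + 1) → K), y ≠ 0 → (∀ G ∈ 𝒢, ev x y G = 0) →
        aeval x a ≠ 0 → logHeight y ≤ C * (1 + ∑ i, logHeight₁ (x i))

/-- finite unions of arithmetic progressions -/
def S_Fuap : Prop := ∀ (S : Set ℕ) (c : ℕ), 1 ≤ c →
  (∀ r < c, {n | n ∈ S ∧ n % c = r}.Finite ∨ {n | n ∉ S ∧ n % c = r}.Finite) → FUAP S

/-- THEOREM D: dynamical Mordell-Lang for families of endomorphisms of projective space over the
translation: for curves, and for arbitrary subvarieties if the heights of the orbit do not grow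
as fast as possible -/
def S_ThD : Prop := ∀ (m : ℕ) (K : Type) [Field K] [NumberField K] (d : ℕ) (b : K)
  (F : Fin (m + 1) → MvPolynomial (Fin (m + 1)) (MvPolynomial (Fin 1) K))
  (x : ℕ → Fin 1 → K) (y : ℕ → Fin (m + 1) → K)
  (𝒢 : Set (MvPolynomial (Fin (m + 1)) (MvPolynomial (Fin 1) K))), 1 ≤ m → 2 ≤ d → b ≠ 0 →
  (∀ i, (F i).IsHomogeneous d) → NoZ F → OrbB (gT b) F x y →
  (∀ G ∈ 𝒢, ∃ t, G.IsHomogeneous t) →
  (CvV 𝒢 ∨ ¬ ∃ c : ℝ, 0 < c ∧ ∀ᶠ n : ℕ in atTop, c * (d : ℝ) ^ n ≤ logHeight (y n)) →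
    FUAP {n | ∀ G ∈ 𝒢, ev (x n) (y n) G = 0}

/-- orbits on a subvariety of relative dimension zero satisfy binary forms -/
def S_GlueZ : Prop := ∀ (m : ℕ) (K : Type) [Field K] (d : ℕ) (b : K)
  (F : Fin (m + 1) → MvPolynomial (Fin (m + 1)) (MvPolynomial (Fin 1) K)) (n0 c : ℕ)
  (IW : Ideal (MvPolynomial (Fin (m + 1)) (MvPolynomial (Fin 1) K)))
  (x : ℕ → Fin 1 → K) (y : ℕ → Fin (m + 1) → K), 1 ≤ d → 1 ≤ c →
  (∀ i, (F i).IsHomogeneous d) → NlF F d → OrbB (gT b) F x y → VarV IW → Hor IW → RZ IW →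
  InvV IW (gT b) F c → OnV IW (x n0) (y n0) →
    ∀ i j : Fin (m + 1), ∃ (t : ℕ) (H : MvPolynomial (Fin (1 + 1)) (MvPolynomial (Fin 1) K)),
      H ≠ 0 ∧ H.IsHomogeneous t ∧ ∀ n, ev (x n) ![y n i, y n j] H = 0

/-- THEOREM B*: Kawaguchi-Silverman for all orbits of families of endomorphisms of projective
space over the translation: the arithmetic degree exists at every point and is `1` or `d`, and
it is `1` only for orbits contained in curves. -/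
def S_ThBS : Prop := ∀ (m : ℕ) (K : Type) [Field K] [NumberField K] (d : ℕ) (b : K)
  (F : Fin (m + 1) → MvPolynomial (Fin (m + 1)) (MvPolynomial (Fin 1) K))
  (x : ℕ → Fin 1 → K) (y : ℕ → Fin (m + 1) → K), 1 ≤ m → 2 ≤ d → b ≠ 0 →
  (∀ i, (F i).IsHomogeneous d) → NoZ F → OrbB (gT b) F x y →
    Tendsto (fun n : ℕ => (dgB (gT b) F n : ℝ) ^ ((1 : ℝ) / n)) atTop (𝓝 d) ∧
    (Tendsto (fun n : ℕ => ((logHeight (Fin.cons 1 (x n) : Fin (1 + 1) → K) +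
        logHeight (y n)) / Module.finrank ℚ K) ^ ((1 : ℝ) / n)) atTop (𝓝 d) ∨
      (Tendsto (fun n : ℕ => ((logHeight (Fin.cons 1 (x n) : Fin (1 + 1) → K) +
        logHeight (y n)) / Module.finrank ℚ K) ^ ((1 : ℝ) / n)) atTop (𝓝 1) ∧
      (∃ C : ℝ, ∀ n : ℕ, logHeight (Fin.cons 1 (x n) : Fin (1 + 1) → K) +
        logHeight (y n) ≤ C * Real.log (n + 2)) ∧
      ∀ i j : Fin (m + 1), ∃ (t : ℕ)
        (H : MvPolynomial (Fin (1 + 1)) (MvPolynomial (Fin 1) K)),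
        H ≠ 0 ∧ H.IsHomogeneous t ∧ ∀ n, ev (x n) ![y n i, y n j] H = 0))

end Pool.Agent.Work.MP_91e6de_nt.DMR
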