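import Mathlib
import Pool.Agent.Work.MP_91e6de_nt.DMR.StmtsW

set_option autoImplicit false

/-!
# Item GrVB: lower bound for the degrees on invariant subvarieties of positive relative dimension
-/

namespace Pool.Agent.Work.MP_91e6de_nt.DMR

open MvPolynomial

namespace GrVB

variable {m : ℕ} {A B : Type} [CommRing A] [CommRing B] [Algebra A B]

/-- The forms of degree `n`. -/
def W (A : Type) {B : Type} [CommRing A] [CommRing B] [Algebra A B] (y : Fin (m + 1) → B)
    (n : ℕ) : Submodule A B :=
  Submodule.span A {b | ∃ u : Fin (m + 1) → ℕ, ∑ i, u i = n ∧ b = ∏ i, y i ^ u i}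

lemma mono_mem (y : Fin (m + 1) → B) (u : Fin (m + 1) → ℕ) {n : ℕ} (h : ∑ i, u i = n) :
    ∏ i, y i ^ u i ∈ W A y n := Submodule.subset_span ⟨u, h, rfl⟩

lemma W_fg (y : Fin (m + 1) → B) (n : ℕ) : (W A y n).FG := by
  apply Submodule.fg_span
  have h : {u : Fin (m + 1) → ℕ | ∑ i, u i = n}.Finite := by
    apply (Set.finite_Iic (fun _ : Fin (m + 1) => n)).subset
    intro u hu i
    have h1 : u i ≤ ∑ j, u j := Finset.single_le_sum (fun _ _ => Nat.zero_le _) (Finset.mem_univ i)
    simpa [← hu.out] using h1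
  refine (h.image fun u => ∏ i, y i ^ u i).subset ?_
  rintro b ⟨u, hu, rfl⟩
  exact ⟨u, hu, rfl⟩

lemma mul_mem (y : Fin (m + 1) → B) {n k : ℕ} {p : B} (hp : p ∈ W A y n)
    (u : Fin (m + 1) → ℕ) (hu : ∑ i, u i = k) : p * ∏ i, y i ^ u i ∈ W A y (n + k) := by
  unfold W at hp
  induction hp using Submodule.span_induction with
  | mem x hx =>
    obtain ⟨v, hv, rfl⟩ := hx
    rw [← Finset.prod_mul_distrib]
    have : ∏ i, y i ^ v i * y i ^ u i = ∏ i, y i ^ (v i + u i) :=
      Finset.prod_congr rfl fun i _ => (pow_add _ _ _).symm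
    rw [this]
    exact mono_mem y _ (by rw [Finset.sum_add_distrib, hv, hu])
  | zero => rw [zero_mul]; exact zero_mem _
  | add a b _ _ ha hb => rw [add_mul]; exact add_mem ha hb
  | smul r a _ ha => rw [smul_mul_assoc]; exact Submodule.smul_mem _ _ ha

lemma pigeon (u : Fin (m + 1) → ℕ) (N : ℕ) (h : (m + 1) * N ≤ ∑ i, u i) : ∃ i, N ≤ u i := by
  by_contra hc
  push Not at hc
  rcases Nat.eq_zero_or_pos N with h0 | h0
  · exact absurd (hc 0) (by omega)
  · have : ∑ i, u i < ∑ _i : Fin (m + 1), N :=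
      Finset.sum_lt_sum_of_nonempty Finset.univ_nonempty fun i _ => hc i
    simp at this
    omega

/-- one division step -/
lemma step (y : Fin (m + 1) → B) (N δ : ℕ) (hN : δ ≤ N) (c z : B)
    (a : Fin (m + 1) → B) (ha : ∀ l, a l ∈ W A y (N - δ)) (h : ∀ l, c * y l ^ N = z * a l)
    (n : ℕ) (hn : (m + 1) * N ≤ n) (p : B) (hp : p ∈ W A y n) :
    ∃ p' ∈ W A y (n - δ), c * p = z * p' := by
  unfold W at hp
  induction hp using Submodule.span_induction with
  | mem x hx =>
    obtain ⟨u, hu, rfl⟩ := hx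
    obtain ⟨l, hl⟩ := pigeon u N (by rw [hu]; exact hn)
    set v : Fin (m + 1) → ℕ := Function.update u l (u l - N) with hv
    have e : ∏ i, y i ^ u i = y l ^ N * ∏ i, y i ^ v i := by
      rw [← Finset.mul_prod_erase _ _ (Finset.mem_univ l),
        ← Finset.mul_prod_erase _ (fun i => y i ^ v i) (Finset.mem_univ l), ← mul_assoc]
      congr 1
      · rw [hv, Function.update_self, ← pow_add]
        congr 1
        omega
      · apply Finset.prod_congr rfl
        intro i hi
        rw [hv, Function.update_of_ne (Finset.ne_of_mem_erase hi)]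
    have e2 : ∑ i, v i = n - N := by
      have h1 : ∑ i, u i = u l + ∑ i ∈ Finset.univ.erase l, u i :=
        (Finset.add_sum_erase _ _ (Finset.mem_univ l)).symm
      have h2 : ∑ i, v i = v l + ∑ i ∈ Finset.univ.erase l, v i :=
        (Finset.add_sum_erase _ _ (Finset.mem_univ l)).symm
      have h3 : ∑ i ∈ Finset.univ.erase l, v i = ∑ i ∈ Finset.univ.erase l, u i := by
        apply Finset.sum_congr rfl
        intro i hi
        rw [hv, Function.update_of_ne (Finset.ne_of_mem_erase hi)]
      have h4 : v l = u l - N := by rw [hv, Function.update_self]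
      omega
    have hNn : N ≤ n := by
      calc N ≤ (m + 1) * N := Nat.le_mul_of_pos_left N (Nat.succ_pos m)
        _ ≤ n := hn
    refine ⟨a l * ∏ i, y i ^ v i, ?_, ?_⟩
    · have := mul_mem y (ha l) v e2
      rwa [show N - δ + (n - N) = n - δ by omega] at this
    · rw [e, ← mul_assoc, h l, mul_assoc]
  | zero => exact ⟨0, zero_mem _, by simp⟩
  | add p q _ _ h1 h2 =>
    obtain ⟨p', hp', e1⟩ := h1
    obtain ⟨q', hq', e2⟩ := h2
    exact ⟨p' + q', add_mem hp' hq', by rw [mul_add, mul_add, e1, e2]⟩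
  | smul r p _ h1 =>
    obtain ⟨p', hp', e1⟩ := h1
    exact ⟨r • p', Submodule.smul_mem _ _ hp', by
      rw [mul_smul_comm, mul_smul_comm, e1]⟩

lemma steps (y : Fin (m + 1) → B) (N δ : ℕ) (hN : δ ≤ N) (c z : B)
    (a : Fin (m + 1) → B) (ha : ∀ l, a l ∈ W A y (N - δ)) (h : ∀ l, c * y l ^ N = z * a l)
    (j : ℕ) (p : B) (hp : p ∈ W A y ((m + 1) * N + j * δ)) :
    ∃ p' ∈ W A y ((m + 1) * N), c ^ j * p = z ^ j * p' := by
  induction j generalizing p with
  | zero => exact ⟨p, by simpa using hp, by simp⟩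
  | succ j ih =>
    obtain ⟨p1, hp1, e1⟩ := step y N δ hN c z a ha h _ (Nat.le_add_right _ _) p hp
    have e0 : (m + 1) * N + (j + 1) * δ - δ = (m + 1) * N + j * δ := by
      rw [show (m + 1) * N + (j + 1) * δ = (m + 1) * N + j * δ + δ by ring, Nat.add_sub_cancel]
    rw [e0] at hp1
    obtain ⟨p', hp', e2⟩ := ih p1 hp1
    refine ⟨p', hp', ?_⟩
    calc c ^ (j + 1) * p = c ^ j * (c * p) := by ring
      _ = z * (c ^ j * p1) := by rw [e1]; ring
      _ = z ^ (j + 1) * p' := by rw [e2]; ring

lemma core [IsDomain A] [IsDomain B] (y : Fin (m + 1) → B) (N δ : ℕ) (hδ : 1 ≤ δ)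
    (hN : δ ≤ N) (c z : B) (hc : c ≠ 0)
    (a : Fin (m + 1) → B) (ha : ∀ l, a l ∈ W A y (N - δ)) (h : ∀ l, c * y l ^ N = z * a l)
    (i i' : Fin (m + 1)) :
    ∃ (n : ℕ) (q : Fin (n + 1) → A), q ≠ 0 ∧
      ∑ b, algebraMap A B (q b) * (y i ^ (b : ℕ) * y i' ^ (n - (b : ℕ))) = 0 := by
  obtain ⟨M, g, hg⟩ := Submodule.fg_iff_exists_fin_generating_family.1
    (W_fg (A := A) y ((m + 1) * N))
  set n := (m + 1) * N + M * δ with hn
  have hMn : M ≤ n := by
    have : M ≤ M * δ := Nat.le_mul_of_pos_right M hδ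
    omega
  have hmem : ∀ b : Fin (n + 1), y i ^ (b : ℕ) * y i' ^ (n - (b : ℕ)) ∈ W A y n := by
    intro b
    have hb : (b : ℕ) ≤ n := Nat.lt_succ_iff.1 b.2
    have := mono_mem (A := A) y (Pi.single i (b : ℕ) + Pi.single i' (n - (b : ℕ))) (n := n) (by
      simp only [Pi.add_apply]
      rw [Finset.sum_add_distrib, Finset.sum_pi_single' , Finset.sum_pi_single']
      simp
      omega)
    convert this using 1
    simp only [Pi.add_apply, pow_add]
    rw [Finset.prod_mul_distrib]
    congr 1
    · rw [Finset.prod_eq_single i]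
      · rw [Pi.single_eq_same]
      · intro j _ hj
        rw [Pi.single_eq_of_ne hj, pow_zero]
      · intro hj; exact absurd (Finset.mem_univ i) hj
    · rw [Finset.prod_eq_single i']
      · rw [Pi.single_eq_same]
      · intro j _ hj
        rw [Pi.single_eq_of_ne hj, pow_zero]
      · intro hj; exact absurd (Finset.mem_univ i') hj
  have hs : ∀ b : Fin (n + 1), ∃ l : Fin M → A,
      c ^ M * (y i ^ (b : ℕ) * y i' ^ (n - (b : ℕ))) = z ^ M * ∑ k, l k • g k := by
    intro b
    obtain ⟨p', hp', e⟩ := steps y N δ hN c z a ha h M _ (hmem b)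
    rw [← hg] at hp'
    obtain ⟨l, hl⟩ := (Submodule.mem_span_range_iff_exists_fun A).1 hp'
    exact ⟨l, by rw [hl, e]⟩
  choose l hl using hs
  let f : (Fin (n + 1) → A) →ₗ[A] (Fin M → A) :=
    { toFun := fun q => ∑ b, q b • l b
      map_add' := by
        intro p q
        simp only [Pi.add_apply, add_smul, Finset.sum_add_distrib]
      map_smul' := by
        intro r q
        simp only [Pi.smul_apply, smul_eq_mul, mul_smul, Finset.smul_sum, RingHom.id_apply] }
  have hf : ¬ Function.Injective f := by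
    intro hi
    have := le_of_fin_injective A f hi
    omega
  rw [injective_iff_map_eq_zero] at hf
  push Not at hf
  obtain ⟨q, hq, hq0⟩ := hf
  refine ⟨n, q, hq0, ?_⟩
  have hk : ∀ k, ∑ b, q b * l b k = 0 := by
    intro k
    have := congrFun hq k
    simpa [f, Finset.sum_apply] using this
  have hz : c ^ M * ∑ b, algebraMap A B (q b) * (y i ^ (b : ℕ) * y i' ^ (n - (b : ℕ))) = 0 := by
    rw [Finset.mul_sum]
    calc ∑ b, c ^ M * (algebraMap A B (q b) * (y i ^ (b : ℕ) * y i' ^ (n - (b : ℕ))))
        = ∑ b, algebraMap A B (q b) * (z ^ M * ∑ k, l b k • g k) := by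
          apply Finset.sum_congr rfl
          intro b _
          rw [← hl b]
          ring
      _ = z ^ M * ∑ b, ∑ k, (q b * l b k) • g k := by
          rw [Finset.mul_sum]
          apply Finset.sum_congr rfl
          intro b _
          rw [mul_left_comm, Finset.mul_sum]
          congr 1
          apply Finset.sum_congr rfl
          intro k _
          rw [Algebra.smul_def, Algebra.smul_def, map_mul, mul_assoc]
      _ = z ^ M * ∑ k, (∑ b, q b * l b k) • g k := by
          rw [Finset.sum_comm]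
          congr 1
          apply Finset.sum_congr rfl
          intro k _
          rw [Finset.sum_smul]
      _ = 0 := by simp [hk]
  rcases mul_eq_zero.1 hz with h0 | h0
  · exact absurd h0 (pow_ne_zero _ hc)
  · exact h0

lemma homog_mem {s : ℕ} {K : Type} [Field K]
    (IV : Ideal (MvPolynomial (Fin (m + 1)) (MvPolynomial (Fin s) K)))
    (P : MvPolynomial (Fin (m + 1)) (MvPolynomial (Fin s) K)) (n : ℕ) (hP : P.IsHomogeneous n) :
    Ideal.Quotient.mk IV P ∈
      W (MvPolynomial (Fin s) K) (fun i => Ideal.Quotient.mk IV (X i)) n := by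
  rw [← support_sum_monomial_coeff P, map_sum]
  apply Submodule.sum_mem
  intro u hu
  have h1 : ∑ i, u i = n := by
    have := hP (mem_support_iff.1 hu)
    simpa [Finsupp.weight_apply, Finsupp.sum_fintype] using this
  have h2 : Ideal.Quotient.mk IV (monomial u (coeff u P)) =
      algebraMap (MvPolynomial (Fin s) K) _ (coeff u P) *
        ∏ i, (Ideal.Quotient.mk IV (X i)) ^ u i := by
    rw [monomial_eq, map_mul, Finsupp.prod_fintype _ _ (fun i => pow_zero _), map_prod]
    simp only [map_pow]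
    rfl
  rw [h2, ← Algebra.smul_def]
  exact Submodule.smul_mem _ _ (mono_mem _ _ h1)

end GrVB

theorem pr_GrVB (h1 : S_NlIt) : S_GrVB := by
  intro s m K _ IV g F d hd hV hHor hg hF hNl hRZ k D G hG hGh hGY
  by_contra hlt
  push Not at hlt
  have hlt' : D < d ^ k := by exact_mod_cast hlt
  obtain ⟨t, ρ, H, hρ, hH, hHY⟩ := h1 s m K g F d hd hg hF hNl k
  have := hV.prime
  obtain ⟨i0, hi0⟩ := hG
  apply hRZ
  intro i i'
  set π := Ideal.Quotient.mk IV with hπ
  have hc : π (C ρ) * π (G i0) ≠ 0 := by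
    apply mul_ne_zero
    · intro h
      exact hρ (hHor ρ (Ideal.Quotient.eq_zero_iff_mem.1 h))
    · intro h
      exact hi0 (Ideal.Quotient.eq_zero_iff_mem.1 h)
  obtain ⟨n, q, hq, hsum⟩ := GrVB.core (A := MvPolynomial (Fin s) K)
    (fun l => π (X l)) (t + d ^ k) (d ^ k - D) (by omega) (by omega)
    (π (C ρ) * π (G i0)) (π ((itB g F k).2 i0)) hc
    (fun l => π (∑ j, H l j * G j))
    (by
      intro l
      have : t + d ^ k - (d ^ k - D) = t + D := by omega
      rw [this]
      exact GrVB.homog_mem IV _ _ (IsHomogeneous.sum _ _ _ fun j _ => (hH l j).mul (hGh j)))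
    (by
      intro l
      have e1 : π (C ρ) * π (X l) ^ (t + d ^ k) = ∑ j, π (H l j) * π ((itB g F k).2 j) := by
        rw [← map_pow, ← map_mul, hHY l, map_sum]
        simp only [map_mul]
      have e2 : ∀ j, π (G i0) * π ((itB g F k).2 j) = π (G j) * π ((itB g F k).2 i0) := by
        intro j
        rw [← map_mul, ← map_mul]
        exact Ideal.Quotient.eq.2 (hGY i0 j)
      calc π (C ρ) * π (G i0) * π (X l) ^ (t + d ^ k)
          = (π (C ρ) * π (X l) ^ (t + d ^ k)) * π (G i0) := by ring
        _ = ∑ j, π (H l j) * (π (G i0) * π ((itB g F k).2 j)) := by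
            rw [e1, Finset.sum_mul]
            exact Finset.sum_congr rfl fun j _ => by ring
        _ = ∑ j, π (H l j) * (π (G j) * π ((itB g F k).2 i0)) := by simp only [e2]
        _ = π ((itB g F k).2 i0) * π (∑ j, H l j * G j) := by
            rw [map_sum, Finset.mul_sum]
            simp only [map_mul]
            exact Finset.sum_congr rfl fun j _ => by ring)
    i i'
  refine ⟨n, ∑ b : Fin (n + 1), C (q b) * (X 0 ^ (b : ℕ) * X 1 ^ (n - (b : ℕ))), ?_, ?_, ?_⟩
  · intro h0
    apply hq
    funext b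
    have h2 := congrArg (aeval (R := MvPolynomial (Fin s) K)
      (![Polynomial.X, 1] : Fin (1 + 1) → Polynomial (MvPolynomial (Fin s) K))) h0
    have h3 := congrArg (fun f => Polynomial.coeff f (b : ℕ)) h2
    simp only [map_sum, map_mul, map_pow, aeval_X, map_zero, Polynomial.coeff_zero,
      Matrix.cons_val_zero, Matrix.cons_val_one, one_pow, mul_one, aeval_C,
      Polynomial.finsetSum_coeff] at h3
    have h4 : ∀ x : Fin (n + 1), (algebraMap (MvPolynomial (Fin s) K)
        (Polynomial (MvPolynomial (Fin s) K)) (q x) * Polynomial.X ^ (x : ℕ)).coeff (b : ℕ) =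
        if x = b then q x else 0 := by
      intro x
      rw [Polynomial.algebraMap_eq, Polynomial.coeff_C_mul, Polynomial.coeff_X_pow]
      by_cases hx : x = b
      · simp [hx]
      · have : (b : ℕ) ≠ (x : ℕ) := fun h => hx (Fin.ext h.symm)
        simp [hx, this]
    simp only [h4] at h3
    simpa using h3
  · apply IsHomogeneous.sum
    intro b _
    have hb : (b : ℕ) ≤ n := Nat.lt_succ_iff.1 b.2
    have := (isHomogeneous_C (Fin (1 + 1)) (q b)).mul
      (((isHomogeneous_X (MvPolynomial (Fin s) K) (0 : Fin (1 + 1))).pow (b : ℕ)).mul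
        ((isHomogeneous_X (MvPolynomial (Fin s) K) (1 : Fin (1 + 1))).pow (n - (b : ℕ))))
    convert this using 1
    omega
  · rw [← Ideal.Quotient.eq_zero_iff_mem, ← hsum]
    unfold bin
    rw [ev_sum, map_sum]
    apply Finset.sum_congr rfl
    intro b _
    have e3 : (aeval (R := K) fun l => (C (X l : MvPolynomial (Fin s) K) :
        MvPolynomial (Fin (m + 1)) (MvPolynomial (Fin s) K))) (q b) = C (q b) := by
      have : (aeval (R := K) fun l => (C (X l : MvPolynomial (Fin s) K) :
          MvPolynomial (Fin (m + 1)) (MvPolynomial (Fin s) K))) =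
          (Algebra.ofId (MvPolynomial (Fin s) K)
            (MvPolynomial (Fin (m + 1)) (MvPolynomial (Fin s) K))).restrictScalars K := by
        apply MvPolynomial.algHom_ext
        intro l
        simp
      rw [this]
      rfl
    rw [ev_mul, ev_C, e3, ev_mul, ev_pow, ev_pow, ev_X, ev_X]
    simp only [Matrix.cons_val_zero, Matrix.cons_val_one, map_mul, map_pow]
    rfl

end Pool.Agent.Work.MP_91e6de_nt.DMR
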