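import Mathlib
import Pool.Agent.Work.MP_91e6de_nt.Bd.B09
import Pool.Agent.Work.MP_91e6de_nt.Bd.B13
import Pool.Agent.Work.MP_91e6de_nt.Bd.B11
import Pool.Agent.Work.MP_91e6de_nt.Bd.B07
import Pool.Agent.Work.MP_91e6de_nt.Bd.B10
import Pool.Agent.Work.MP_91e6de_nt.Bd.B14
import Pool.Agent.Work.MP_91e6de_nt.Bd.B08
import Pool.Agent.Work.MP_91e6de_nt.Bd.B12
import Pool.Agent.Work.MP_91e6de_nt.DMR.I_GrVB
import Pool.Agent.Work.MP_91e6de_nt.Bd.B16
import Pool.Agent.Work.MP_91e6de_nt.Bd.B15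

set_option autoImplicit false

/-! Assembly: everything without hypotheses. -/

namespace Pool.Agent.Work.MP_91e6de_nt.DMR

theorem all_AlgZ : S_AlgZ := pr_AlgZ 
theorem all_BNV : S_BNV := pr_BNV 
theorem all_BPol : S_BPol := pr_BPol 
theorem all_BasT : S_BasT := pr_BasT 
theorem all_Hz : S_Hz := pr_Hz 
theorem all_ChI : S_ChI := pr_ChI all_Hz
theorem all_Gap2 : S_Gap2 := pr_Gap2 
theorem all_ClsG : S_ClsG := pr_ClsG 
theorem all_Good : S_Good := pr_Good DM.pr_Bad DM.all_Plc DM.pr_Avg all_ClsG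
theorem all_PushEx : S_PushEx := pr_PushEx 
theorem all_PushPt : S_PushPt := pr_PushPt 
theorem all_DimTr : S_DimTr := pr_DimTr 
theorem all_HsDeg : S_HsDeg := pr_HsDeg 
theorem all_PushDim : S_PushDim := pr_PushDim all_DimTr all_HsDeg
theorem all_VanG : S_VanG := pr_VanG 
theorem all_Det : S_Det := pr_Det 
theorem all_Rank : S_Rank := pr_Rank all_VanG all_Det
theorem all_IteG : S_IteG := pr_IteG 
theorem all_Rel : S_Rel := pr_Rel all_Rank all_IteG
theorem all_Cut : S_Cut := pr_Cut 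
theorem all_DimLt : S_DimLt := pr_DimLt all_DimTr
theorem all_Krull : S_Krull := pr_Krull all_DimTr all_DimLt
theorem all_HFlow : S_HFlow := pr_HFlow 
theorem all_Num : S_Num := pr_Num all_DimLt all_HFlow
theorem all_Down : S_Down := pr_Down all_Cut all_Krull all_Num
theorem all_RelHB : S_RelHB := pr_RelHB 
theorem all_Step : S_Step := pr_Step all_PushEx all_PushPt all_PushDim all_Rel all_Down all_RelHB
theorem all_HBRel : S_HBRel := pr_HBRel 
theorem all_Trans : S_Trans := pr_Trans all_DimTr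
theorem all_E1 : S_E1 := pr_E1 all_Trans
theorem all_E2 : S_E2 := pr_E2 all_DimTr
theorem all_EE : S_EE := pr_EE all_HBRel all_E1 all_E2
theorem all_Chain : S_Chain := pr_Chain all_Gap2 all_Good all_Step all_EE all_Down
theorem all_Chain2 : S_Chain2 := pr_Chain2 all_Gap2 all_Good all_Step all_EE all_Down
theorem all_CoDB : S_CoDB := pr_CoDB 
theorem all_CoDV : S_CoDV := pr_CoDV 
theorem all_CoHB : S_CoHB := pr_CoHB DM.pr_PoH
theorem all_CoHV : S_CoHV := pr_CoHV all_CoHB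
theorem all_CoOB : S_CoOB := pr_CoOB 
theorem all_Cond : S_Cond := pr_Cond 
theorem all_IndG : S_IndG := pr_IndG 
theorem all_DegG : S_DegG := pr_DegG all_HsDeg
theorem all_RelZ : S_RelZ := pr_RelZ all_Rank all_IteG all_IndG all_DegG
theorem all_Start : S_Start := pr_Start all_Good all_RelZ all_Down
theorem all_Exp : S_Exp := pr_Exp 
theorem all_Exp0 : S_Exp0 := pr_Exp0 
theorem all_Lev0 : S_Lev0 := pr_Lev0 
theorem all_Core : S_Core := pr_Core all_Start all_Chain all_Exp all_Exp0 all_Lev0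
theorem all_RelZ2 : S_RelZ2 := pr_RelZ2 all_Rank all_IteG all_DegG
theorem all_Start2 : S_Start2 := pr_Start2 all_Good all_RelZ2 all_Down
theorem all_Exp02 : S_Exp02 := pr_Exp02 
theorem all_Core2 : S_Core2 := pr_Core2 all_Start2 all_Chain2 all_Exp all_Exp02 all_Lev0
theorem all_HomT : S_HomT := pr_HomT 
theorem all_ItIt : S_ItIt := pr_ItIt 
theorem all_RepA : S_RepA := pr_RepA 
theorem all_CycW : S_CycW := pr_CycW all_HomT all_Hz all_ChI all_ItIt all_RepA
theorem all_NulG : S_NulG := pr_NulG 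
theorem all_TopIt : S_TopIt := pr_TopIt all_NulG
theorem all_DgC : S_DgC := pr_DgC all_TopIt
theorem all_Nul : S_Nul := pr_Nul 
theorem all_DgLow : S_DgLow := pr_DgLow all_Nul
theorem all_DgX : S_DgX := pr_DgX 
theorem all_DgGB : S_DgGB := pr_DgGB all_DgLow all_DgX
theorem all_DicC : S_DicC := pr_DicC DM.pr_Dic
theorem all_HUm : S_HUm := pr_HUm DM.pr_PoH
theorem all_HLm : S_HLm := pr_HLm all_HUm
theorem all_DicW : S_DicW := pr_DicW all_HUm all_HLm all_BasT DM.pr_Dic DM.pr_UB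
theorem all_ExHB : S_ExHB := pr_ExHB all_RelHB
theorem all_FinB : S_FinB := pr_FinB 
theorem all_FinV : S_FinV := pr_FinV 
theorem all_FinZ : S_FinZ := pr_FinZ all_AlgZ
theorem all_Fuap : S_Fuap := pr_Fuap 
theorem all_NlIt : S_NlIt := pr_NlIt 
theorem all_ImW : S_ImW := pr_ImW all_AlgZ all_NlIt all_ItIt
theorem all_SubO : S_SubO := pr_SubO 
theorem all_GlueZ : S_GlueZ := pr_GlueZ all_ImW all_SubO
theorem all_HmH : S_HmH := pr_HmH 
theorem all_GrC : S_GrC := pr_GrC all_HmH all_TopIt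
theorem all_GrNd : S_GrNd := pr_GrNd 
theorem all_GrPt : S_GrPt := pr_GrPt all_ChI
theorem all_GrVB : S_GrVB := pr_GrVB all_NlIt
theorem all_HBV : S_HBV := pr_HBV all_ChI all_ExHB all_HFlow all_Hz
theorem all_HXP : S_HXP := pr_HXP DM.pr_PoH
theorem all_HsAlg : S_HsAlg := pr_HsAlg 
theorem all_HtA : S_HtA := pr_HtA 
theorem all_HtC : S_HtC := pr_HtC 
theorem all_RootH : S_RootH := pr_RootH 
theorem all_HtCv : S_HtCv := pr_HtCv all_RootH all_HUm
theorem all_IntB : S_IntB := pr_IntB 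
theorem all_IntV : S_IntV := pr_IntV 
theorem all_ItrB : S_ItrB := pr_ItrB all_IteG all_CoOB
theorem all_ItrV : S_ItrV := pr_ItrV all_IteG all_CoOB all_ChI all_RepA
theorem all_LocG : S_LocG := pr_LocG 
theorem all_MapG : S_MapG := pr_MapG 
theorem all_NRV : S_NRV := pr_NRV all_ChI all_Cond all_Hz
theorem all_ScalI : S_ScalI := pr_ScalI 
theorem all_ScalP : S_ScalP := pr_ScalP 
theorem all_WinV : S_WinV := pr_WinV all_Core2 all_CoDV all_CoHV all_IntV all_NRV all_ItrV all_RepA all_ScalI all_ScalP all_MapG all_IteG all_ChI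
theorem all_ParR : S_ParR := pr_ParR 
theorem all_WndG : S_WndG := pr_WndG 
theorem all_TUP : S_TUP := pr_TUP all_WinV all_ParR all_WndG all_CycW all_HBV all_GrPt all_GrNd
theorem all_MaxP : S_MaxP := pr_MaxP all_TUP all_GrVB all_NlIt all_SubO all_BasT all_ItIt
theorem all_RDc : S_RDc := pr_RDc 
theorem all_RDB : S_RDB := pr_RDB all_RDc all_Hz all_ItrB
theorem all_RepFin : S_RepFin := pr_RepFin 
theorem all_Win : S_Win := pr_Win all_Core all_CoOB all_CoDB all_CoHB all_RDB all_IntB all_ScalI all_ScalP all_MapG all_IteG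
theorem all_TailB : S_TailB := pr_TailB all_HomT all_Hz
theorem all_TU : S_TU := pr_TU all_Win all_ParR all_WndG all_TailB all_FinB
theorem all_T2AG : S_T2AG := pr_T2AG all_TU
theorem all_TailV : S_TailV := pr_TailV all_HomT all_Hz all_RepA
theorem all_WndR : S_WndR := pr_WndR all_WndG
theorem all_TUV : S_TUV := pr_TUV all_WinV all_ParR all_WndG all_TailV all_FinV all_HBV all_RepFin all_WndR all_RepA all_GrPt all_GrNd
theorem all_T2AX : S_T2AX := pr_T2AX all_TUV
theorem all_TUVw : S_TUVw := pr_TUVw all_WinV all_ParR all_WndG all_TailV all_FinV all_HBV all_RepFin all_WndR all_RepA all_GrPt all_GrNd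
theorem all_T2AXw : S_T2AXw := pr_T2AXw all_TUVw
theorem all_ThA : S_ThA := pr_ThA all_T2AG
theorem all_ThAX : S_ThAX := pr_ThAX all_T2AX
theorem all_ThAXw : S_ThAXw := pr_ThAXw all_T2AXw
theorem all_UInj : S_UInj := pr_UInj 
theorem all_ThB : S_ThB := pr_ThB all_BPol all_HXP all_BNV all_UInj all_Nul all_HUm all_HLm all_DgLow all_DgGB all_HtA all_TU DM.pr_Dic DM.pr_UB DM.pr_Lim
theorem all_ThBS : S_ThBS := pr_ThBS all_MaxP all_DicW all_GlueZ all_BasT all_DgGB all_Nul DM.pr_Lim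
theorem all_TriC : S_TriC := pr_TriC all_NulG all_LocG DM.pr_PoH
theorem all_ThC : S_ThC := pr_ThC all_BPol all_HXP all_BNV all_UInj all_HUm all_HmH all_TriC all_DicC all_GrC all_DgC all_HtC all_TU DM.pr_UB DM.pr_Lim all_Hz
theorem all_ThD : S_ThD := pr_ThD all_MaxP all_DicW all_HtCv all_ImW all_FinZ all_BasT all_SubO all_Fuap all_Nul
theorem all_XB : S_XB := pr_XB all_ThBS all_DgGB DM.pr_Lim
theorem all_XC : S_XC := pr_XC all_ThC all_DgC DM.pr_Lim

end Pool.Agent.Work.MP_91e6de_nt.DMR
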